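import Pool.Agent.Run7.h884.PS.Defs

/-!
# The abstract construction of a peak function from a sparse system of nodes
-/

namespace H884.PS

open Complex Metric Set Filter Topology
open scoped Classical ComplexConjugate

/-- A sparse system of nodes on the unit circle. -/
structure Sys (α : ℝ) where
  ι : Type
  ζ : ι → ℂ
  X : ι → ℝ
  m : ι → ℝ
  hζ : ∀ j, ‖ζ j‖ = 1
  X0 : ∀ j, 0 < X j
  X1 : ∀ j, X j ≤ 1
  m0 : ∀ j, 0 < m j
  m1 : ∀ j, m j ≤ 1
  hm : ∀ j, m j ^ α = X j ^ (1 - α)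
  hX : ∀ j, ‖1 - ζ j‖ ≤ 2 * X j
  sm : Summable m
  K : ∀ z : ℂ, ‖z‖ ≤ 1 → z ≠ 1 → ∃ j0, (∀ j, j ≠ j0 → z ≠ ζ j) ∧
      Summable (fun j => if j = j0 then 0 else m j / ‖z - ζ j‖) ∧
      (∑' j, if j = j0 then 0 else m j / ‖z - ζ j‖) ≤ 1 / (8 * ‖z - 1‖) ∧
      ((z ≠ ζ j0 ∧ m j0 / ‖z - ζ j0‖ ≤ 1 / (8 * ‖z - 1‖)) ∨
        (X j0 ≤ 2 * ‖z - 1‖ ∧ ‖z - 1‖ ≤ 2 * X j0))

namespace Sys

variable {α : ℝ} (S : Sys α)

/-- The peak set. -/
def E : Set ℂ := insert 1 (range S.ζ)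

/-- crossing distance -/
noncomputable def t (j : S.ι) : ℝ := S.m j * S.X j

/-- `1 - conj ζ z` -/
noncomputable def w (j : S.ι) (z : ℂ) : ℂ := 1 - conj (S.ζ j) * z

/-- the two poles of a node -/
noncomputable def u (j : S.ι) (z : ℂ) : ℂ :=
  (S.m j : ℂ) / S.w j z + (S.m j : ℂ) / ((S.t j : ℂ) + S.w j z)

/-- the function with positive real part -/
noncomputable def g (z : ℂ) : ℂ := 1 / (1 - z) + ∑' j, S.u j z

/-- `m_j / |z - ζ_j|` -/
noncomputable def a (z : ℂ) (j : S.ι) : ℝ := S.m j / ‖z - S.ζ j‖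

/-- the reciprocal of `g`, zero on the peak set -/
noncomputable def F (z : ℂ) : ℂ := if z ∈ S.E then 0 else (S.g z)⁻¹

lemma t0 (j : S.ι) : 0 < S.t j := mul_pos (S.m0 j) (S.X0 j)

lemma norm_w (j : S.ι) (z : ℂ) : ‖S.w j z‖ = ‖z - S.ζ j‖ := by
  have h1 : S.ζ j * conj (S.ζ j) = 1 := by
    rw [Complex.mul_conj, Complex.normSq_eq_norm_sq, S.hζ j]; simp
  have h2 : S.ζ j * S.w j z = S.ζ j - z := by
    unfold w; rw [mul_sub, mul_one, ← mul_assoc, h1, one_mul]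
  have h3 : ‖S.ζ j * S.w j z‖ = ‖S.w j z‖ := by rw [norm_mul, S.hζ j, one_mul]
  rw [← h3, h2, norm_sub_rev]

lemma re_w (j : S.ι) {z : ℂ} (hz : ‖z‖ ≤ 1) : 0 ≤ (S.w j z).re := by
  unfold w
  have h1 : (conj (S.ζ j) * z).re ≤ ‖conj (S.ζ j) * z‖ := Complex.re_le_norm _
  have h2 : ‖conj (S.ζ j) * z‖ ≤ 1 := by
    rw [norm_mul, RCLike.norm_conj, S.hζ j, one_mul]; exact hz
  simp only [Complex.sub_re, Complex.one_re]; linarith

lemma norm_add_ge {s : ℝ} (hs : 0 ≤ s) {w : ℂ} (hw : 0 ≤ w.re) : ‖w‖ ≤ ‖(s : ℂ) + w‖ := by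
  rw [← Real.sqrt_sq (norm_nonneg w), ← Real.sqrt_sq (norm_nonneg ((s : ℂ) + w))]
  apply Real.sqrt_le_sqrt
  rw [Complex.sq_norm, Complex.sq_norm, Complex.normSq_apply, Complex.normSq_apply]
  simp only [Complex.add_re, Complex.add_im, Complex.ofReal_re, Complex.ofReal_im]
  nlinarith

lemma norm_add_ge' {s : ℝ} (_hs : 0 ≤ s) {w : ℂ} (hw : 0 ≤ w.re) : s ≤ ‖(s : ℂ) + w‖ := by
  have h1 : ((s : ℂ) + w).re ≤ ‖(s : ℂ) + w‖ := Complex.re_le_norm _
  simp only [Complex.add_re, Complex.ofReal_re] at h1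
  linarith

lemma re_div {m : ℝ} (_hm : 0 ≤ m) {w : ℂ} : ((m : ℂ) / w).re = m * w.re / ‖w‖ ^ 2 := by
  rw [Complex.div_re, Complex.sq_norm]
  simp

lemma re_div_nonneg {m : ℝ} (hm : 0 ≤ m) {w : ℂ} (hw : 0 ≤ w.re) : 0 ≤ ((m : ℂ) / w).re := by
  rw [re_div hm]; positivity

lemma re_u (j : S.ι) {z : ℂ} (hz : ‖z‖ ≤ 1) : 0 ≤ (S.u j z).re := by
  unfold u
  rw [Complex.add_re]
  have h1 := re_div_nonneg (S.m0 j).le (S.re_w j hz)
  have h2 : 0 ≤ ((S.m j : ℂ) / ((S.t j : ℂ) + S.w j z)).re := by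
    apply re_div_nonneg (S.m0 j).le
    simp only [Complex.add_re, Complex.ofReal_re]
    have := S.re_w j hz; have := S.t0 j; linarith
  linarith

lemma norm_u_le (j : S.ι) {z : ℂ} (hz : ‖z‖ ≤ 1) (hj : z ≠ S.ζ j) :
    ‖S.u j z‖ ≤ 2 * S.a z j := by
  have hpos : 0 < ‖z - S.ζ j‖ := norm_pos_iff.mpr (sub_ne_zero.mpr hj)
  have h1 : ‖(S.m j : ℂ) / S.w j z‖ = S.a z j := by
    rw [norm_div, Complex.norm_real, Real.norm_of_nonneg (S.m0 j).le, S.norm_w]; rfl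
  have h2 : ‖(S.m j : ℂ) / ((S.t j : ℂ) + S.w j z)‖ ≤ S.a z j := by
    rw [norm_div, Complex.norm_real, Real.norm_of_nonneg (S.m0 j).le]
    unfold a
    apply div_le_div_of_nonneg_left (S.m0 j).le hpos
    rw [← S.norm_w]
    exact norm_add_ge (S.t0 j).le (S.re_w j hz)
  unfold u
  calc _ ≤ _ := norm_add_le _ _
    _ ≤ _ := by rw [h1]; linarith

lemma not_mem_E {z : ℂ} (h : z ∉ S.E) : z ≠ 1 ∧ ∀ j, z ≠ S.ζ j := by
  unfold E at h
  rw [mem_insert_iff, not_or] at h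
  exact ⟨h.1, fun j hj => h.2 ⟨j, hj.symm⟩⟩

/-- The basic facts at a point of the closed disc off `E`. -/
structure Pt (z : ℂ) (j0 : S.ι) : Prop where
  hz : ‖z‖ ≤ 1
  h1 : z ≠ 1
  hj : ∀ j, z ≠ S.ζ j
  sa : Summable (S.a z)
  sr : Summable (fun j => if j = j0 then 0 else S.a z j)
  rest : (∑' j, if j = j0 then 0 else S.a z j) ≤ 1 / (8 * ‖z - 1‖)
  alt : (S.a z j0 ≤ 1 / (8 * ‖z - 1‖)) ∨ (S.X j0 ≤ 2 * ‖z - 1‖ ∧ ‖z - 1‖ ≤ 2 * S.X j0)

lemma exists_pt {z : ℂ} (hz : ‖z‖ ≤ 1) (h : z ∉ S.E) : ∃ j0, S.Pt z j0 := by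
  obtain ⟨h1, hj⟩ := S.not_mem_E h
  obtain ⟨j0, hne, hs, ht, halt⟩ := S.K z hz h1
  refine ⟨j0, hz, h1, hj, ?_, hs, ht, ?_⟩
  · apply hs.congr_cofinite
    have : ({j0}ᶜ : Set S.ι) ∈ cofinite := (Set.finite_singleton j0).compl_mem_cofinite
    filter_upwards [this] with j hj'
    have : j ≠ j0 := by simpa using hj'
    simp only [this, if_false]; rfl
  · rcases halt with h | h
    · exact Or.inl h.2
    · exact Or.inr h

variable {S}

lemma Pt.d0 {z : ℂ} {j0 : S.ι} (P : S.Pt z j0) : 0 < ‖z - 1‖ :=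
  norm_pos_iff.mpr (sub_ne_zero.mpr P.h1)

lemma Pt.a_nonneg {z : ℂ} {j0 : S.ι} (_P : S.Pt z j0) (j : S.ι) : 0 ≤ S.a z j := by
  unfold a; have := (S.m0 j).le; positivity

lemma Pt.su {z : ℂ} {j0 : S.ι} (P : S.Pt z j0) : Summable (fun j => S.u j z) := by
  apply Summable.of_norm_bounded (P.sa.mul_left 2)
  intro j
  exact S.norm_u_le j P.hz (P.hj j)

lemma Pt.norm_rest {z : ℂ} {j0 : S.ι} (P : S.Pt z j0) :
    ‖∑' j, if j = j0 then 0 else S.u j z‖ ≤ 1 / (4 * ‖z - 1‖) := by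
  have h1 : ∀ j, ‖(if j = j0 then (0 : ℂ) else S.u j z)‖ ≤
      2 * (if j = j0 then 0 else S.a z j) := by
    intro j
    split_ifs with h
    · simp
    · exact S.norm_u_le j P.hz (P.hj j)
  have h2 := tsum_of_norm_bounded ((P.sr.mul_left 2).hasSum) h1
  rw [tsum_mul_left] at h2
  have h3 := P.rest
  have h4 : 1 / (4 * ‖z - 1‖) = 2 * (1 / (8 * ‖z - 1‖)) := by
    have := P.d0; field_simp; norm_num
  rw [h4]; linarith

lemma Pt.g_eq {z : ℂ} {j0 : S.ι} (P : S.Pt z j0) :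
    S.g z = 1 / (1 - z) + (S.u j0 z + ∑' j, if j = j0 then 0 else S.u j z) := by
  unfold g
  rw [P.su.tsum_eq_add_tsum_ite j0]

lemma norm_one_div {z : ℂ} : ‖1 / (1 - z)‖ = 1 / ‖z - 1‖ := by
  rw [norm_div, norm_one, norm_sub_rev]

lemma re_one_div {z : ℂ} (hz : ‖z‖ ≤ 1) (h1 : z ≠ 1) : 1 / 2 ≤ (1 / (1 - z)).re := by
  have hne : (1 - z) ≠ 0 := sub_ne_zero.mpr (Ne.symm h1)
  have hpos : 0 < ‖1 - z‖ ^ 2 := by have := norm_pos_iff.mpr hne; positivity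
  have h2 : (1 / (1 - z)).re = (1 - z).re / ‖1 - z‖ ^ 2 := by
    have := re_div (m := 1) zero_le_one (w := 1 - z)
    simpa using this
  rw [h2, le_div_iff₀ hpos, Complex.sq_norm, Complex.normSq_apply]
  have h3 : ‖z‖ ^ 2 ≤ 1 := by nlinarith [norm_nonneg z]
  rw [Complex.sq_norm, Complex.normSq_apply] at h3
  simp only [Complex.sub_re, Complex.one_re, Complex.sub_im, Complex.one_im]
  nlinarith

lemma Pt.re_g {z : ℂ} {j0 : S.ι} (P : S.Pt z j0) : 1 / 2 + (S.u j0 z).re ≤ (S.g z).re := by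
  rw [P.g_eq]
  have hs : Summable (fun j => if j = j0 then 0 else S.u j z) := by
    apply Summable.of_norm_bounded (P.sr.mul_left 2)
    intro j
    split_ifs with h
    · simp
    · exact S.norm_u_le j P.hz (P.hj j)
  have h1 : 0 ≤ (∑' j, if j = j0 then 0 else S.u j z).re := by
    rw [Complex.re_tsum hs]
    apply tsum_nonneg
    intro j
    split_ifs with h
    · simp
    · exact S.re_u j P.hz
  have h2 := re_one_div P.hz P.h1
  simp only [Complex.add_re] at *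
  linarith

lemma Pt.g_ne {z : ℂ} {j0 : S.ι} (P : S.Pt z j0) : S.g z ≠ 0 := by
  intro h
  have h1 := P.re_g
  have h2 := S.re_u j0 P.hz
  rw [h] at h1
  simp at h1
  linarith

/-- The first lower bound for `g`. -/
lemma Pt.g_lower {z : ℂ} {j0 : S.ι} (P : S.Pt z j0) : 1 / (578 * ‖z - 1‖) ≤ ‖S.g z‖ := by
  have hd := P.d0
  have hR := P.norm_rest
  have key : ‖S.u j0 z‖ ≤ 1 / (4 * ‖z - 1‖) → 1 / (578 * ‖z - 1‖) ≤ ‖S.g z‖ := by
    intro hu
    rw [P.g_eq]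
    have h1 : ‖1 / (1 - z)‖ - ‖S.u j0 z + ∑' j, if j = j0 then 0 else S.u j z‖ ≤
        ‖1 / (1 - z) + (S.u j0 z + ∑' j, if j = j0 then 0 else S.u j z)‖ := by
      have := norm_sub_le (1 / (1 - z) + (S.u j0 z + ∑' j, if j = j0 then 0 else S.u j z))
        (S.u j0 z + ∑' j, if j = j0 then 0 else S.u j z)
      rw [add_sub_cancel_right] at this
      linarith
    have h2 := norm_add_le (S.u j0 z) (∑' j, if j = j0 then 0 else S.u j z)
    rw [norm_one_div] at h1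
    have h3 : 1 / (578 * ‖z - 1‖) ≤ 1 / ‖z - 1‖ - 1 / (4 * ‖z - 1‖) - 1 / (4 * ‖z - 1‖) := by
      have e1 : 1 / ‖z - 1‖ - 1 / (4 * ‖z - 1‖) - 1 / (4 * ‖z - 1‖) = 289 / (578 * ‖z - 1‖) := by
        field_simp; norm_num
      rw [e1]
      exact div_le_div_of_nonneg_right (by norm_num) (by positivity)
    linarith
  rcases P.alt with ha | ⟨hX1, hX2⟩
  · apply key
    have := S.norm_u_le j0 P.hz (P.hj j0)
    have h4 : 1 / (4 * ‖z - 1‖) = 2 * (1 / (8 * ‖z - 1‖)) := by field_simp; norm_num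
    rw [h4]; linarith
  · have hX0 := S.X0 j0
    have hm0 := S.m0 j0
    have ht0 := S.t0 j0
    have hw0 : 0 < ‖z - S.ζ j0‖ := norm_pos_iff.mpr (sub_ne_zero.mpr (P.hj j0))
    by_cases hw : 16 * S.t j0 ≤ ‖z - S.ζ j0‖
    · apply key
      have h1 := S.norm_u_le j0 P.hz (P.hj j0)
      have h2 : S.a z j0 ≤ 1 / (8 * ‖z - 1‖) := by
        unfold a
        rw [div_le_div_iff₀ hw0 (by positivity)]
        unfold t at hw
        nlinarith
      have h4 : 1 / (4 * ‖z - 1‖) = 2 * (1 / (8 * ‖z - 1‖)) := by field_simp; norm_num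
      rw [h4]; linarith
    · push Not at hw
      have h1 := P.re_g
      have h2 : (S.g z).re ≤ ‖S.g z‖ := Complex.re_le_norm _
      have hrw := S.re_w j0 P.hz
      have h3 : S.m j0 * S.t j0 / (17 * S.t j0) ^ 2 ≤ (S.u j0 z).re := by
        unfold u
        rw [Complex.add_re]
        have e1 := re_div_nonneg (S.m0 j0).le (S.re_w j0 P.hz)
        have e2 : ((S.m j0 : ℂ) / ((S.t j0 : ℂ) + S.w j0 z)).re =
            S.m j0 * ((S.t j0 : ℂ) + S.w j0 z).re / ‖(S.t j0 : ℂ) + S.w j0 z‖ ^ 2 :=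
          re_div hm0.le
        have e3 : ‖(S.t j0 : ℂ) + S.w j0 z‖ ≤ 17 * S.t j0 := by
          have := norm_add_le (S.t j0 : ℂ) (S.w j0 z)
          rw [Complex.norm_real, Real.norm_of_nonneg ht0.le, S.norm_w] at this
          linarith
        have e4 : S.t j0 ≤ ((S.t j0 : ℂ) + S.w j0 z).re := by
          simp only [Complex.add_re, Complex.ofReal_re]; linarith
        have e5 : 0 < ‖(S.t j0 : ℂ) + S.w j0 z‖ := lt_of_lt_of_le ht0 (norm_add_ge' ht0.le hrw)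
        have e6 : S.m j0 * S.t j0 / (17 * S.t j0) ^ 2 ≤
            S.m j0 * ((S.t j0 : ℂ) + S.w j0 z).re / ‖(S.t j0 : ℂ) + S.w j0 z‖ ^ 2 := by
          apply div_le_div₀
          · have : 0 ≤ ((S.t j0 : ℂ) + S.w j0 z).re := by linarith
            positivity
          · exact mul_le_mul_of_nonneg_left e4 hm0.le
          · positivity
          · exact pow_le_pow_left₀ e5.le e3 2
        rw [e2]; linarith
      have h4 : S.m j0 * S.t j0 / (17 * S.t j0) ^ 2 = 1 / (289 * S.X j0) := by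
        unfold t; field_simp; norm_num
      have h5 : 1 / (578 * ‖z - 1‖) ≤ 1 / (289 * S.X j0) := by
        apply one_div_le_one_div_of_le (by positivity); nlinarith
      rw [h4] at h3
      linarith

end Sys
end H884.PS
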