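import Pool.Agent.Run7.h884.PS.Abs

/-!
# The peak function is Hölder continuous
-/

namespace H884.PS

open Complex Metric Set Filter Topology
open scoped Classical ComplexConjugate

namespace Sys

variable {α : ℝ} {S : Sys α}

lemma Pt.a_le {z : ℂ} {j0 : S.ι} (P : S.Pt z j0) {j : S.ι} (h : j ≠ j0) :
    S.a z j ≤ 1 / (8 * ‖z - 1‖) := by
  have h1 := P.sr.le_tsum j (fun i _ => by
    split_ifs
    · exact le_rfl
    · exact P.a_nonneg i)
  simp only [h, if_false] at h1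
  exact h1.trans P.rest

lemma Pt.U1 {z : ℂ} {j0 : S.ι} (P : S.Pt z j0) : ‖(S.g z)⁻¹‖ ≤ 578 * ‖z - 1‖ := by
  have hd := P.d0
  rw [norm_inv]
  have h1 := P.g_lower
  have h2 := inv_anti₀ (by positivity) h1
  rw [one_div, inv_inv] at h2
  exact h2

lemma Pt.U2 {z : ℂ} {j0 : S.ι} (P : S.Pt z j0) (j : S.ι) :
    ‖(S.g z)⁻¹‖ * S.m j ≤ 10000 * ‖z - S.ζ j‖ := by
  have hd := P.d0
  have hU := P.U1
  have hm0 := S.m0 j
  have hX0 := S.X0 j
  have ht0 := S.t0 j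
  have hw0 : 0 < ‖z - S.ζ j‖ := norm_pos_iff.mpr (sub_ne_zero.mpr (P.hj j))
  have key : S.a z j ≤ 1 / (8 * ‖z - 1‖) → ‖(S.g z)⁻¹‖ * S.m j ≤ 10000 * ‖z - S.ζ j‖ := by
    intro ha
    unfold a at ha
    rw [div_le_div_iff₀ hw0 (by positivity)] at ha
    calc ‖(S.g z)⁻¹‖ * S.m j ≤ (578 * ‖z - 1‖) * S.m j := by gcongr
      _ ≤ 10000 * ‖z - S.ζ j‖ := by nlinarith
  by_cases hj : j = j0
  · subst hj
    rcases P.alt with ha | ⟨hX1, hX2⟩
    · exact key ha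
    · by_cases hw : S.t j ≤ 8 * ‖z - S.ζ j‖
      · unfold t at hw
        calc ‖(S.g z)⁻¹‖ * S.m j ≤ (578 * ‖z - 1‖) * S.m j := by gcongr
          _ ≤ (578 * (2 * S.X j)) * S.m j := by gcongr
          _ ≤ 10000 * ‖z - S.ζ j‖ := by nlinarith
      · push Not at hw
        have hR := P.norm_rest
        have e0 : ‖(S.m j : ℂ) / S.w j z‖ = S.m j / ‖z - S.ζ j‖ := by
          rw [norm_div, Complex.norm_real, Real.norm_of_nonneg hm0.le, S.norm_w]
        have e1 : ‖(S.m j : ℂ) / ((S.t j : ℂ) + S.w j z)‖ ≤ S.m j / S.t j := by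
          rw [norm_div, Complex.norm_real, Real.norm_of_nonneg hm0.le]
          apply div_le_div_of_nonneg_left hm0.le ht0
          exact norm_add_ge' ht0.le (S.re_w j P.hz)
        have e2 : S.m j / S.t j = 1 / S.X j := by unfold t; field_simp
        have e3 : 1 / ‖z - 1‖ ≤ 2 / S.X j := by
          rw [div_le_div_iff₀ hd hX0]; linarith
        have e4 : 1 / (4 * ‖z - 1‖) ≤ 1 / (2 * S.X j) := by
          apply one_div_le_one_div_of_le (by positivity); linarith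
        have e5 : 8 / S.X j ≤ S.m j / ‖z - S.ζ j‖ := by
          rw [div_le_div_iff₀ hX0 hw0]
          unfold t at hw; linarith
        have e6 : S.m j / ‖z - S.ζ j‖ - 7 / 2 / S.X j ≤ ‖S.g z‖ := by
          have h1 : (S.m j : ℂ) / S.w j z = S.g z - 1 / (1 - z) -
              (S.m j : ℂ) / ((S.t j : ℂ) + S.w j z) -
              (∑' i, if i = j then 0 else S.u i z) := by
            rw [P.g_eq]; unfold u; ring
          have h2 := norm_sub_le (S.g z - 1 / (1 - z) -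
              (S.m j : ℂ) / ((S.t j : ℂ) + S.w j z)) (∑' i, if i = j then 0 else S.u i z)
          have h3 := norm_sub_le (S.g z - 1 / (1 - z))
              ((S.m j : ℂ) / ((S.t j : ℂ) + S.w j z))
          have h4 := norm_sub_le (S.g z) (1 / (1 - z))
          rw [← h1, e0] at h2
          rw [norm_one_div] at h4
          have h5 : 7 / 2 / S.X j = 1 / S.X j + 2 / S.X j + 1 / (2 * S.X j) := by
            field_simp; norm_num
          rw [h5]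
          linarith [e1.trans e2.le]
        have e7 : S.m j / ‖z - S.ζ j‖ / 2 ≤ ‖S.g z‖ := by
          have : 7 / 2 / S.X j ≤ S.m j / ‖z - S.ζ j‖ / 2 := by
            have h9 : 7 / 2 / S.X j = (7 / 16) * (8 / S.X j) := by ring
            have h10 : (0 : ℝ) ≤ S.m j / ‖z - S.ζ j‖ := by positivity
            rw [h9]; linarith
          linarith
        have hg0 : 0 < ‖S.g z‖ := norm_pos_iff.mpr P.g_ne
        rw [norm_inv, inv_mul_le_iff₀ hg0]
        have : S.m j ≤ ‖S.g z‖ * (2 * ‖z - S.ζ j‖) := by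
          have h8 : S.m j = (S.m j / ‖z - S.ζ j‖ / 2) * (2 * ‖z - S.ζ j‖) := by
            field_simp
          rw [h8]; gcongr
        nlinarith [mul_pos hg0 hw0]
  · exact key (P.a_le hj)

lemma Pt.sum_le {z : ℂ} {j0 : S.ι} (P : S.Pt z j0) :
    ‖(S.g z)⁻¹‖ * ∑' j, S.a z j ≤ 20000 := by
  rw [P.sa.tsum_eq_add_tsum_ite j0, mul_add]
  have hd := P.d0
  have hw0 : 0 < ‖z - S.ζ j0‖ := norm_pos_iff.mpr (sub_ne_zero.mpr (P.hj j0))
  have h1 : ‖(S.g z)⁻¹‖ * S.a z j0 ≤ 10000 := by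
    unfold a
    rw [← mul_div_assoc, div_le_iff₀ hw0]
    exact P.U2 j0
  have h2 : ‖(S.g z)⁻¹‖ * (∑' j, if j = j0 then 0 else S.a z j) ≤ 578 / 8 := by
    have h0 : 0 ≤ ∑' j, if j = j0 then 0 else S.a z j := by
      apply tsum_nonneg; intro j
      split_ifs
      · exact le_rfl
      · exact P.a_nonneg j
    calc ‖(S.g z)⁻¹‖ * (∑' j, if j = j0 then 0 else S.a z j)
        ≤ (578 * ‖z - 1‖) * (1 / (8 * ‖z - 1‖)) := by
          apply mul_le_mul P.U1 P.rest h0 (by positivity)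
      _ = 578 / 8 := by field_simp
  have : (578 : ℝ) / 8 ≤ 10000 := by norm_num
  linarith

lemma half_le_rpow {δ : ℝ} (hα0 : 0 < α) (hδ0 : 0 < δ) (hδ : δ ≤ 2) :
    1 / 2 ≤ δ ^ (α - 1) ∨ 1 < α := by
  by_cases h : 1 < α
  · exact Or.inr h
  · left
    push Not at h
    have h1 : (2 : ℝ) ^ (α - 1) ≤ δ ^ (α - 1) :=
      Real.rpow_le_rpow_of_nonpos hδ0 hδ (by linarith)
    have h2 : (2 : ℝ) ^ (-1 : ℝ) ≤ 2 ^ (α - 1) :=
      Real.rpow_le_rpow_of_exponent_le (by norm_num) (by linarith)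
    rw [Real.rpow_neg_one] at h2
    rw [one_div]; linarith

lemma half_le {δ : ℝ} (hα0 : 0 < α) (hα1 : α < 1) (hδ0 : 0 < δ) (hδ : δ ≤ 2) :
    1 / 2 ≤ δ ^ (α - 1) := by
  rcases half_le_rpow hα0 hδ0 hδ with h | h
  · exact h
  · linarith

lemma Pt.key4 {z : ℂ} {j0 : S.ι} (P : S.Pt z j0) (hα0 : 0 < α) (hα1 : α < 1) (j : S.ι) {δ : ℝ}
    (hδ0 : 0 < δ) (hδ : δ ≤ 2) (hδ2 : δ ≤ 2 * ‖z - S.ζ j‖) :
    ‖(S.g z)⁻¹‖ / ‖z - S.ζ j‖ ≤ 10000 * δ ^ (α - 1) := by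
  have hm0 := S.m0 j
  have hX0 := S.X0 j
  have hw0 : 0 < ‖z - S.ζ j‖ := by linarith
  have hhalf := half_le hα0 hα1 hδ0 hδ
  have q1 : ‖(S.g z)⁻¹‖ / ‖z - S.ζ j‖ ≤ 10000 * (1 / S.m j) := by
    rw [div_le_iff₀ hw0]
    have := P.U2 j
    have e : 10000 * (1 / S.m j) * ‖z - S.ζ j‖ = 10000 * ‖z - S.ζ j‖ / S.m j := by ring
    rw [e, le_div_iff₀ hm0]; exact this
  have q2 : ‖(S.g z)⁻¹‖ / ‖z - S.ζ j‖ ≤ 578 * (1 + 4 * S.X j / δ) := by
    rw [div_le_iff₀ hw0]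
    have h1 := P.U1
    have h2 : ‖z - 1‖ ≤ ‖z - S.ζ j‖ + 2 * S.X j := by
      have := norm_sub_le_norm_sub_add_norm_sub z (S.ζ j) 1
      have h3 := S.hX j
      rw [norm_sub_rev] at h3
      linarith
    have h3 : 2 * S.X j ≤ 4 * S.X j / δ * ‖z - S.ζ j‖ := by
      rw [div_mul_eq_mul_div, le_div_iff₀ hδ0]; nlinarith
    calc ‖(S.g z)⁻¹‖ ≤ 578 * ‖z - 1‖ := h1
      _ ≤ 578 * (‖z - S.ζ j‖ + 4 * S.X j / δ * ‖z - S.ζ j‖) := by
          apply mul_le_mul_of_nonneg_left _ (by norm_num); linarith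
      _ = 578 * (1 + 4 * S.X j / δ) * ‖z - S.ζ j‖ := by ring
  by_cases hc : S.X j ≤ δ
  · have h1 : S.X j / δ ≤ 1 := (div_le_one hδ0).mpr hc
    have h2 : 4 * S.X j / δ = 4 * (S.X j / δ) := by ring
    rw [h2] at q2
    linarith
  · push Not at hc
    have h1 : 1 ≤ S.X j / δ := (one_le_div hδ0).mpr hc.le
    have h2 : 4 * S.X j / δ = 4 * (S.X j / δ) := by ring
    rw [h2] at q2
    set q := ‖(S.g z)⁻¹‖ / ‖z - S.ζ j‖ with hq
    have hq0 : 0 ≤ q := by positivity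
    set r := q / 10000 with hr
    have hr0 : 0 ≤ r := by positivity
    have r1 : r ≤ 1 / S.m j := by rw [hr, div_le_iff₀ (by norm_num)]; linarith
    have r2 : r ≤ S.X j / δ := by rw [hr, div_le_iff₀ (by norm_num)]; linarith
    have r3 : r ≤ (1 / S.m j) ^ α * (S.X j / δ) ^ (1 - α) := by
      have e1 : r = r ^ α * r ^ (1 - α) := by
        by_cases h0 : r = 0
        · rw [h0, Real.zero_rpow (ne_of_gt hα0), zero_mul]
        · rw [← Real.rpow_add (lt_of_le_of_ne hr0 (Ne.symm h0))]; simp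
      rw [e1]
      apply mul_le_mul
      · exact Real.rpow_le_rpow hr0 r1 hα0.le
      · exact Real.rpow_le_rpow hr0 r2 (by linarith)
      · positivity
      · positivity
    have e2 : (1 / S.m j) ^ α * (S.X j / δ) ^ (1 - α) = δ ^ (α - 1) := by
      rw [Real.div_rpow zero_le_one hm0.le, Real.div_rpow hX0.le hδ0.le, Real.one_rpow, S.hm j]
      have h3 : 0 < S.X j ^ (1 - α) := Real.rpow_pos_of_pos hX0 _
      have h4 : δ ^ (α - 1) = (δ ^ (1 - α))⁻¹ := by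
        rw [← Real.rpow_neg hδ0.le]; congr 1; ring
      rw [h4]
      have h5 : 0 < δ ^ (1 - α) := Real.rpow_pos_of_pos hδ0 _
      field_simp
    rw [e2] at r3
    rw [hr, div_le_iff₀ (by norm_num)] at r3
    linarith

lemma u_diff (j : S.ι) {z z' : ℂ} (hz : ‖z‖ ≤ 1) (hz' : ‖z'‖ ≤ 1) (h : z ≠ S.ζ j)
    (h' : z' ≠ S.ζ j) :
    ‖S.u j z' - S.u j z‖ ≤ 2 * S.m j * ‖z - z'‖ / (‖z - S.ζ j‖ * ‖z' - S.ζ j‖) := by
  have hm0 := S.m0 j
  have hp : 0 < ‖z - S.ζ j‖ := norm_pos_iff.mpr (sub_ne_zero.mpr h)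
  have hp' : 0 < ‖z' - S.ζ j‖ := norm_pos_iff.mpr (sub_ne_zero.mpr h')
  have key : ∀ s : ℝ, 0 ≤ s → ‖(S.m j : ℂ) / ((s : ℂ) + S.w j z') -
      (S.m j : ℂ) / ((s : ℂ) + S.w j z)‖ ≤
      S.m j * ‖z - z'‖ / (‖z - S.ζ j‖ * ‖z' - S.ζ j‖) := by
    intro s hs
    have n1 : ‖z - S.ζ j‖ ≤ ‖(s : ℂ) + S.w j z‖ := by
      rw [← S.norm_w]; exact norm_add_ge hs (S.re_w j hz)
    have n2 : ‖z' - S.ζ j‖ ≤ ‖(s : ℂ) + S.w j z'‖ := by
      rw [← S.norm_w]; exact norm_add_ge hs (S.re_w j hz')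
    have ne1 : (s : ℂ) + S.w j z ≠ 0 := norm_pos_iff.mp (lt_of_lt_of_le hp n1)
    have ne2 : (s : ℂ) + S.w j z' ≠ 0 := norm_pos_iff.mp (lt_of_lt_of_le hp' n2)
    have e1 : (S.m j : ℂ) / ((s : ℂ) + S.w j z') - (S.m j : ℂ) / ((s : ℂ) + S.w j z) =
        (S.m j : ℂ) * (conj (S.ζ j) * (z' - z)) /
          (((s : ℂ) + S.w j z) * ((s : ℂ) + S.w j z')) := by
      rw [div_sub_div _ _ ne2 ne1, mul_comm ((s : ℂ) + S.w j z') ((s : ℂ) + S.w j z)]
      congr 1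
      unfold w; ring
    rw [e1, norm_div, norm_mul, norm_mul, norm_mul, Complex.norm_real,
      Real.norm_of_nonneg hm0.le, RCLike.norm_conj, S.hζ j, one_mul, norm_sub_rev z' z]
    apply div_le_div_of_nonneg_left (by positivity) (by positivity)
    exact mul_le_mul n1 n2 hp'.le (norm_nonneg _)
  have k1 := key 0 le_rfl
  have k2 := key (S.t j) (S.t0 j).le
  simp only [Complex.ofReal_zero, zero_add] at k1
  have e2 : S.u j z' - S.u j z = ((S.m j : ℂ) / S.w j z' - (S.m j : ℂ) / S.w j z) +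
      ((S.m j : ℂ) / ((S.t j : ℂ) + S.w j z') - (S.m j : ℂ) / ((S.t j : ℂ) + S.w j z)) := by
    unfold u; ring
  rw [e2]
  refine (norm_add_le _ _).trans ?_
  have e3 : 2 * S.m j * ‖z - z'‖ / (‖z - S.ζ j‖ * ‖z' - S.ζ j‖) =
      S.m j * ‖z - z'‖ / (‖z - S.ζ j‖ * ‖z' - S.ζ j‖) +
      S.m j * ‖z - z'‖ / (‖z - S.ζ j‖ * ‖z' - S.ζ j‖) := by ring
  rw [e3]
  exact add_le_add k1 k2

lemma holder_off {z z' : ℂ} {j0 j0' : S.ι} (P : S.Pt z j0) (P' : S.Pt z' j0')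
    (hα0 : 0 < α) (hα1 : α < 1) (hne : z ≠ z') :
    ‖(S.g z)⁻¹ - (S.g z')⁻¹‖ ≤ 10 ^ 9 * ‖z - z'‖ ^ α := by
  set δ := ‖z - z'‖ with hδdef
  have hδ0 : 0 < δ := norm_pos_iff.mpr (sub_ne_zero.mpr hne)
  have hδ : δ ≤ 2 := by
    have := norm_sub_le z z'; have := P.hz; have := P'.hz; linarith
  have hd := P.d0
  have hd' := P'.d0
  set A := ‖(S.g z)⁻¹‖ with hA
  set A' := ‖(S.g z')⁻¹‖ with hA'
  have hA0 : 0 ≤ A := norm_nonneg _
  have hA0' : 0 ≤ A' := norm_nonneg _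
  have e1 : (S.g z)⁻¹ - (S.g z')⁻¹ = (S.g z' - S.g z) * ((S.g z)⁻¹ * (S.g z')⁻¹) := by
    have := P.g_ne; have := P'.g_ne; field_simp
  have e2 : S.g z' - S.g z = (1 / (1 - z') - 1 / (1 - z)) + ∑' j, (S.u j z' - S.u j z) := by
    rw [P'.su.tsum_sub P.su]; unfold g; ring
  have t1 : ‖1 / (1 - z') - 1 / (1 - z)‖ * (A * A') ≤ 578 ^ 2 * δ := by
    have h1 : (1 - z) ≠ 0 := sub_ne_zero.mpr (Ne.symm P.h1)
    have h2 : (1 - z') ≠ 0 := sub_ne_zero.mpr (Ne.symm P'.h1)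
    have h3 : 1 / (1 - z') - 1 / (1 - z) = (z' - z) / ((1 - z) * (1 - z')) := by
      field_simp; ring
    rw [h3, norm_div, norm_mul, norm_sub_rev z' z, norm_sub_rev 1 z, norm_sub_rev 1 z',
      ← hδdef]
    have h4 : A * A' ≤ (578 * ‖z - 1‖) * (578 * ‖z' - 1‖) :=
      mul_le_mul P.U1 P'.U1 hA0' (by positivity)
    calc δ / (‖z - 1‖ * ‖z' - 1‖) * (A * A')
        ≤ δ / (‖z - 1‖ * ‖z' - 1‖) * ((578 * ‖z - 1‖) * (578 * ‖z' - 1‖)) := by gcongr
      _ = 578 ^ 2 * δ := by field_simp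
  have hterm : ∀ j, ‖S.u j z' - S.u j z‖ * (A * A') ≤
      20000 * δ ^ α * (A * S.a z j + A' * S.a z' j) := by
    intro j
    have hm0 := S.m0 j
    have hp : 0 < ‖z - S.ζ j‖ := norm_pos_iff.mpr (sub_ne_zero.mpr (P.hj j))
    have hp' : 0 < ‖z' - S.ζ j‖ := norm_pos_iff.mpr (sub_ne_zero.mpr (P'.hj j))
    have h1 := u_diff j P.hz P'.hz (P.hj j) (P'.hj j)
    rw [← hδdef] at h1
    have hδα : δ * δ ^ (α - 1) = δ ^ α := by
      rw [Real.rpow_sub_one hδ0.ne']; field_simp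
    have ha0 : 0 ≤ S.a z j := P.a_nonneg j
    have ha0' : 0 ≤ S.a z' j := P'.a_nonneg j
    have h2 : ‖S.u j z' - S.u j z‖ * (A * A') ≤
        2 * δ * (A * S.a z j) * (A' / ‖z' - S.ζ j‖) := by
      calc ‖S.u j z' - S.u j z‖ * (A * A')
          ≤ (2 * S.m j * δ / (‖z - S.ζ j‖ * ‖z' - S.ζ j‖)) * (A * A') := by gcongr
        _ = 2 * δ * (A * S.a z j) * (A' / ‖z' - S.ζ j‖) := by unfold a; field_simp
    have h2' : ‖S.u j z' - S.u j z‖ * (A * A') ≤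
        2 * δ * (A' * S.a z' j) * (A / ‖z - S.ζ j‖) := by
      calc ‖S.u j z' - S.u j z‖ * (A * A')
          ≤ (2 * S.m j * δ / (‖z - S.ζ j‖ * ‖z' - S.ζ j‖)) * (A * A') := by gcongr
        _ = 2 * δ * (A' * S.a z' j) * (A / ‖z - S.ζ j‖) := by unfold a; field_simp
    have htri : δ ≤ ‖z - S.ζ j‖ + ‖z' - S.ζ j‖ := by
      have := norm_sub_le_norm_sub_add_norm_sub z (S.ζ j) z'
      rw [norm_sub_rev (S.ζ j) z'] at this
      exact this
    have hδα0 : 0 ≤ δ ^ α := by positivity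
    rcases le_total δ (2 * ‖z' - S.ζ j‖) with hc | hc
    · have h3 := P'.key4 hα0 hα1 j hδ0 hδ hc
      calc ‖S.u j z' - S.u j z‖ * (A * A')
          ≤ 2 * δ * (A * S.a z j) * (A' / ‖z' - S.ζ j‖) := h2
        _ ≤ 2 * δ * (A * S.a z j) * (10000 * δ ^ (α - 1)) := by gcongr
        _ = 20000 * (δ * δ ^ (α - 1)) * (A * S.a z j) := by ring
        _ ≤ 20000 * δ ^ α * (A * S.a z j + A' * S.a z' j) := by
            rw [hδα]; gcongr; have : 0 ≤ A' * S.a z' j := by positivity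
            linarith
    · have hc' : δ ≤ 2 * ‖z - S.ζ j‖ := by linarith
      have h3 := P.key4 hα0 hα1 j hδ0 hδ hc'
      calc ‖S.u j z' - S.u j z‖ * (A * A')
          ≤ 2 * δ * (A' * S.a z' j) * (A / ‖z - S.ζ j‖) := h2'
        _ ≤ 2 * δ * (A' * S.a z' j) * (10000 * δ ^ (α - 1)) := by gcongr
        _ = 20000 * (δ * δ ^ (α - 1)) * (A' * S.a z' j) := by ring
        _ ≤ 20000 * δ ^ α * (A * S.a z j + A' * S.a z' j) := by
            rw [hδα]; gcongr; have : 0 ≤ A * S.a z j := by positivity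
            linarith
  have t2 : ‖∑' j, (S.u j z' - S.u j z)‖ * (A * A') ≤ 20000 * δ ^ α * 40000 := by
    have hs : Summable (fun j => 20000 * δ ^ α * (A * S.a z j + A' * S.a z' j)) :=
      ((P.sa.mul_left A).add (P'.sa.mul_left A')).mul_left _
    have h1 : ‖(∑' j, (S.u j z' - S.u j z)) * ((A * A' : ℝ) : ℂ)‖ ≤
        ∑' j, 20000 * δ ^ α * (A * S.a z j + A' * S.a z' j) := by
      rw [← tsum_mul_right]
      apply tsum_of_norm_bounded hs.hasSum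
      intro j
      rw [norm_mul, Complex.norm_real, Real.norm_of_nonneg (by positivity)]
      exact hterm j
    rw [norm_mul, Complex.norm_real, Real.norm_of_nonneg (by positivity), tsum_mul_left,
      (P.sa.mul_left A).tsum_add (P'.sa.mul_left A'), tsum_mul_left, tsum_mul_left] at h1
    have h2 := P.sum_le
    have h3 := P'.sum_le
    have hδα0 : 0 ≤ δ ^ α := by positivity
    refine h1.trans ?_
    apply mul_le_mul_of_nonneg_left _ (by positivity)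
    linarith
  have hδle : δ ≤ 2 * δ ^ α := by
    have h := half_le hα0 hα1 hδ0 hδ
    have e : δ ^ α = δ * δ ^ (α - 1) := by rw [Real.rpow_sub_one hδ0.ne']; field_simp
    rw [e]; nlinarith
  rw [e1, norm_mul, norm_mul, ← hA, ← hA', e2]
  have h3 := norm_add_le (1 / (1 - z') - 1 / (1 - z)) (∑' j, (S.u j z' - S.u j z))
  have hδα0 : 0 ≤ δ ^ α := by positivity
  calc ‖(1 / (1 - z') - 1 / (1 - z)) + ∑' j, (S.u j z' - S.u j z)‖ * (A * A')
      ≤ (‖1 / (1 - z') - 1 / (1 - z)‖ + ‖∑' j, (S.u j z' - S.u j z)‖) * (A * A') := by gcongr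
    _ = ‖1 / (1 - z') - 1 / (1 - z)‖ * (A * A') +
        ‖∑' j, (S.u j z' - S.u j z)‖ * (A * A') := by ring
    _ ≤ 578 ^ 2 * δ + 20000 * δ ^ α * 40000 := add_le_add t1 t2
    _ ≤ 10 ^ 9 * δ ^ α := by nlinarith

end Sys
end H884.PS
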