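import Pool.Agent.Run7.h884.PS.Abs2

/-!
# The peak function
-/

namespace H884.PS

open Complex Metric Set Filter Topology
open scoped Classical ComplexConjugate

namespace Sys

variable {α : ℝ} {S : Sys α}

lemma F_mem {z : ℂ} (h : z ∈ S.E) : S.F z = 0 := by unfold F; rw [if_pos h]

lemma F_not_mem {z : ℂ} (h : z ∉ S.E) : S.F z = (S.g z)⁻¹ := by unfold F; rw [if_neg h]

lemma norm_E {z : ℂ} (h : z ∈ S.E) : ‖z‖ = 1 := by
  unfold E at h
  rcases h with h | ⟨j, rfl⟩
  · rw [h]; simp
  · exact S.hζ j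

lemma holder_E {z z' : ℂ} (hα0 : 0 < α) (hα1 : α < 1) (hz : ‖z‖ ≤ 1) (h : z ∉ S.E)
    (h' : z' ∈ S.E) : ‖(S.g z)⁻¹‖ ≤ 10 ^ 9 * ‖z - z'‖ ^ α := by
  obtain ⟨j0, P⟩ := S.exists_pt hz h
  have hne : z ≠ z' := fun e => h (e ▸ h')
  have hδ0 : 0 < ‖z - z'‖ := norm_pos_iff.mpr (sub_ne_zero.mpr hne)
  have hδ : ‖z - z'‖ ≤ 2 := by
    have := norm_sub_le z z'; have := norm_E h'; linarith
  have hhalf := half_le hα0 hα1 hδ0 hδ
  have e : ‖z - z'‖ ^ α = ‖z - z'‖ * ‖z - z'‖ ^ (α - 1) := by
    rw [Real.rpow_sub_one hδ0.ne']; field_simp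
  rw [e]
  rcases h' with h' | ⟨j, rfl⟩
  · subst h'
    have h1 := P.U1
    have h2 := mul_le_mul_of_nonneg_left hhalf hδ0.le
    nlinarith
  · have h1 := P.key4 hα0 hα1 j hδ0 hδ (by linarith)
    rw [div_le_iff₀ hδ0] at h1
    nlinarith

lemma holder_all (hα0 : 0 < α) (hα1 : α < 1) {z z' : ℂ} (hz : ‖z‖ ≤ 1) (hz' : ‖z'‖ ≤ 1) :
    ‖S.F z - S.F z'‖ ≤ 10 ^ 9 * ‖z - z'‖ ^ α := by
  by_cases h : z ∈ S.E
  · by_cases h' : z' ∈ S.E
    · rw [F_mem h, F_mem h', sub_zero, norm_zero]; positivity
    · rw [F_mem h, F_not_mem h', zero_sub, norm_neg, norm_sub_rev]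
      exact holder_E hα0 hα1 hz' h' h
  · by_cases h' : z' ∈ S.E
    · rw [F_mem h', F_not_mem h, sub_zero]
      exact holder_E hα0 hα1 hz h h'
    · rw [F_not_mem h, F_not_mem h']
      by_cases hne : z = z'
      · rw [hne, sub_self, norm_zero]; positivity
      · obtain ⟨j0, P⟩ := S.exists_pt hz h
        obtain ⟨j0', P'⟩ := S.exists_pt hz' h'
        exact holder_off P P' hα0 hα1 hne

lemma diff_tsum : DifferentiableOn ℂ (fun z => ∑' j, S.u j z) (ball 0 1) := by
  intro z0 hz0
  rw [mem_ball_zero_iff] at hz0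
  obtain ⟨r, hr1, hr2⟩ := exists_between hz0
  have hd : DifferentiableOn ℂ (fun z => ∑' j, S.u j z) (ball 0 r) := by
    have hs : Summable (fun j => 2 * S.m j / (1 - r)) := (S.sm.mul_left 2).div_const _
    apply differentiableOn_tsum_of_summable_norm hs _ isOpen_ball
    · intro j w hw
      rw [mem_ball_zero_iff] at hw
      have h1 : 1 - r ≤ ‖w - S.ζ j‖ := by
        have := norm_sub_norm_le (S.ζ j) w
        rw [S.hζ j, norm_sub_rev] at this
        linarith
      have hne : w ≠ S.ζ j := by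
        intro h
        rw [h, sub_self, norm_zero] at h1; linarith
      refine (S.norm_u_le j (by linarith) hne).trans ?_
      unfold a
      rw [← mul_div_assoc]
      apply div_le_div_of_nonneg_left _ (by linarith) h1
      have := (S.m0 j).le; positivity
    · intro j w hw
      rw [mem_ball_zero_iff] at hw
      have hne : w ≠ S.ζ j := by
        intro h
        rw [h, S.hζ j] at hw; linarith
      have hp : 0 < ‖w - S.ζ j‖ := norm_pos_iff.mpr (sub_ne_zero.mpr hne)
      have n1 : S.w j w ≠ 0 := by rw [← norm_pos_iff, S.norm_w]; exact hp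
      have n2 : (S.t j : ℂ) + S.w j w ≠ 0 := by
        rw [← norm_pos_iff]
        have := norm_add_ge (S.t0 j).le (S.re_w j (z := w) (by linarith))
        rw [S.norm_w] at this; linarith
      apply DifferentiableAt.differentiableWithinAt
      unfold u
      have hw' : DifferentiableAt ℂ (S.w j) w := by unfold Sys.w; fun_prop
      apply DifferentiableAt.add
      · exact (differentiableAt_const _).div hw' n1
      · exact (differentiableAt_const _).div ((differentiableAt_const _).add hw') n2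
  have : DifferentiableAt ℂ (fun z => ∑' j, S.u j z) z0 :=
    hd.differentiableAt (isOpen_ball.mem_nhds (by rw [mem_ball_zero_iff]; exact hr1))
  exact this.differentiableWithinAt

lemma diff_F : DifferentiableOn ℂ S.F (ball 0 1) := by
  have hE : ∀ z ∈ ball (0 : ℂ) 1, z ∉ S.E := by
    intro z hz h
    rw [mem_ball_zero_iff, norm_E h] at hz
    exact lt_irrefl _ hz
  have h1 : DifferentiableOn ℂ S.g (ball 0 1) := by
    unfold g
    apply DifferentiableOn.add _ diff_tsum
    intro z hz
    apply DifferentiableAt.differentiableWithinAt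
    have : 1 - z ≠ 0 := by
      intro h
      have : z = 1 := (sub_eq_zero.mp h).symm
      rw [this] at hz; simp at hz
    apply DifferentiableAt.div (by fun_prop) (by fun_prop) this
  have h2 : DifferentiableOn ℂ (fun z => (S.g z)⁻¹) (ball 0 1) := by
    apply h1.fun_inv
    intro z hz
    have hz' := hz
    rw [mem_ball_zero_iff] at hz'
    obtain ⟨j0, P⟩ := S.exists_pt hz'.le (hE z hz)
    exact P.g_ne
  apply h2.congr
  intro z hz
  exact F_not_mem (hE z hz)

theorem peak (hα0 : 0 < α) (hα1 : α < 1) (hE : IsClosed S.E) : IsPeakSet α S.E := by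
  refine ⟨hE, ?_, fun z => 1 - S.F z / 2, ⟨?_, ?_, ?_⟩, ?_, ?_⟩
  · intro z hz
    rw [mem_sphere_zero_iff_norm]; exact norm_E hz
  · exact (differentiableOn_const 1).sub (diff_F.div_const 2)
  · have hc : ContinuousOn S.F (closedBall 0 1) := by
      intro z hz
      rw [mem_closedBall_zero_iff] at hz
      rw [ContinuousWithinAt, tendsto_iff_norm_sub_tendsto_zero]
      have hlim : Tendsto (fun w : ℂ => 10 ^ 9 * ‖w - z‖ ^ α) (𝓝[closedBall 0 1] z) (𝓝 0) := by
        have h1 : Tendsto (fun w : ℂ => ‖w - z‖) (𝓝[closedBall 0 1] z) (𝓝 0) := by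
          have : Tendsto (fun w : ℂ => ‖w - z‖) (𝓝 z) (𝓝 ‖z - z‖) :=
            (continuous_id.sub continuous_const).norm.tendsto z
          rw [sub_self, norm_zero] at this
          exact this.mono_left nhdsWithin_le_nhds
        have h2 := (h1.rpow_const (p := α) (Or.inr hα0.le)).const_mul ((10 : ℝ) ^ 9)
        rw [Real.zero_rpow hα0.ne', mul_zero] at h2
        exact h2
      apply squeeze_zero' _ _ hlim
      · exact Eventually.of_forall fun w => norm_nonneg _
      · filter_upwards [self_mem_nhdsWithin] with w hw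
        rw [mem_closedBall_zero_iff] at hw
        exact holder_all hα0 hα1 hw hz
    exact continuousOn_const.sub (hc.div_const 2)
  · refine ⟨10 ^ 9, fun z hz w hw => ?_⟩
    rw [mem_sphere_zero_iff_norm] at hz hw
    have h1 := holder_all (S := S) hα0 hα1 hw.le hz.le
    have h2 : (1 - S.F z / 2) - (1 - S.F w / 2) = (S.F w - S.F z) / 2 := by ring
    rw [h2, norm_div, norm_sub_rev z w]
    have h3 : ‖(2 : ℂ)‖ = 2 := by simp
    rw [h3]
    have h4 : 0 ≤ ‖S.F w - S.F z‖ := norm_nonneg _
    linarith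
  · intro z hz
    show 1 - S.F z / 2 = 1
    rw [F_mem hz]; simp
  · intro z hz
    have hz1 : ‖z‖ = 1 := by
      have := hz.1; rwa [mem_sphere_zero_iff_norm] at this
    obtain ⟨j0, P⟩ := S.exists_pt hz1.le hz.2
    show ‖1 - S.F z / 2‖ < 1
    rw [F_not_mem hz.2]
    have hg := P.g_ne
    have hre : 1 / 2 ≤ (S.g z).re := by
      have := P.re_g; have := S.re_u j0 P.hz; linarith
    have e1 : 1 - (S.g z)⁻¹ / 2 = (2 * S.g z - 1) / (2 * S.g z) := by field_simp
    have h2g : 0 < ‖2 * S.g z‖ := norm_pos_iff.mpr (mul_ne_zero two_ne_zero hg)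
    rw [e1, norm_div, div_lt_one h2g]
    rw [← Real.sqrt_sq (norm_nonneg (2 * S.g z - 1)), ← Real.sqrt_sq (norm_nonneg (2 * S.g z))]
    apply Real.sqrt_lt_sqrt (by positivity)
    rw [Complex.sq_norm, Complex.sq_norm, Complex.normSq_apply, Complex.normSq_apply]
    simp only [Complex.sub_re, Complex.sub_im, Complex.mul_re, Complex.mul_im, Complex.one_re,
      Complex.one_im, Complex.re_ofNat, Complex.im_ofNat]
    nlinarith

end Sys
end H884.PS
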