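import Mathlib

/-!
# Peak sets for analytic Lipschitz classes and zero sets of Gevrey classes: definitions
-/

namespace H884.PS

open Complex Metric Set Filter Topology

/-- The class `A_α`: analytic in the open unit disc, continuous on the closed disc, and
Hölder continuous of order `α` on the unit circle. -/
def MemA (α : ℝ) (f : ℂ → ℂ) : Prop :=
  DifferentiableOn ℂ f (ball 0 1) ∧ ContinuousOn f (closedBall 0 1) ∧
    ∃ C : ℝ, ∀ z ∈ sphere (0 : ℂ) 1, ∀ w ∈ sphere (0 : ℂ) 1, ‖f z - f w‖ ≤ C * ‖z - w‖ ^ α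

/-- Closed subsets of the circle which are peak sets for `A_α`: some `f` in `A_α` is `1` on `E`
and has modulus less than one on the rest of the circle. -/
def IsPeakSet (α : ℝ) (E : Set ℂ) : Prop :=
  IsClosed E ∧ E ⊆ sphere (0 : ℂ) 1 ∧
    ∃ f : ℂ → ℂ, MemA α f ∧ (∀ z ∈ E, f z = 1) ∧ ∀ z ∈ sphere (0 : ℂ) 1 \ E, ‖f z‖ < 1

/-- The Gevrey class `G_α` of the disc: `|f⁽ⁿ⁾(z)| ≤ C^(n+1) (n!)^(1+1/α)` for all `n` and all
`z` in the open disc. -/
def MemG (α : ℝ) (f : ℂ → ℂ) : Prop :=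
  DifferentiableOn ℂ f (ball 0 1) ∧
    ∃ C : ℝ, ∀ n : ℕ, ∀ z ∈ ball (0 : ℂ) 1,
      ‖iteratedDeriv n f z‖ ≤ C ^ (n + 1) * (n.factorial : ℝ) ^ (1 + 1 / α)

/-- Closed subsets of the circle which are zero sets for `G_α`: some `f` in `G_α`, not
identically zero in the disc, vanishes on `E` together with all its derivatives (the values on
the circle being the boundary values, that is the limits from the open disc). -/
def IsZeroSet (α : ℝ) (E : Set ℂ) : Prop :=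
  IsClosed E ∧ E ⊆ sphere (0 : ℂ) 1 ∧
    ∃ f : ℂ → ℂ, MemG α f ∧ (∃ z ∈ ball (0 : ℂ) 1, f z ≠ 0) ∧
      ∀ n : ℕ, ∀ ζ ∈ E, Tendsto (iteratedDeriv n f) (𝓝[ball 0 1] ζ) (𝓝 0)

end H884.PS
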