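import Pool.Agent.Run7.h884.PS.Defs

/-!
# Decay of Gevrey functions at points of flatness, and the Jensen bound
-/

namespace H884.PS

open Complex Metric Set Filter Topology

lemma analytic_iter {f : ℂ → ℂ} (hf : DifferentiableOn ℂ f (ball 0 1)) (n : ℕ) :
    AnalyticOnNhd ℂ (iteratedDeriv n f) (ball 0 1) := by
  have h := (hf.analyticOnNhd isOpen_ball).iterated_deriv n
  rwa [← iteratedDeriv_eq_iterate] at h

lemma seg_mem {ζ z : ℂ} (hζ : ‖ζ‖ = 1) (hz : ‖z‖ < 1) {s : ℝ} (h0 : 0 < s) (h1 : s ≤ 1) :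
    ζ + (s : ℂ) * (z - ζ) ∈ ball (0 : ℂ) 1 := by
  rw [mem_ball_zero_iff]
  have e : ζ + (s : ℂ) * (z - ζ) = ((1 - s : ℝ) : ℂ) * ζ + (s : ℂ) * z := by push_cast; ring
  rw [e]
  have h2 := norm_add_le (((1 - s : ℝ) : ℂ) * ζ) ((s : ℂ) * z)
  rw [norm_mul, norm_mul, Complex.norm_real, Complex.norm_real, hζ, mul_one,
    Real.norm_of_nonneg (by linarith : (0 : ℝ) ≤ 1 - s), Real.norm_of_nonneg h0.le] at h2
  nlinarith

/-- Taylor estimate at a boundary point of flatness. -/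
lemma taylor_flat {f : ℂ → ℂ} (hf : DifferentiableOn ℂ f (ball 0 1)) {ζ : ℂ} (hζ : ‖ζ‖ = 1)
    (hv : ∀ n : ℕ, Tendsto (iteratedDeriv n f) (𝓝[ball 0 1] ζ) (𝓝 0)) {n : ℕ} {M : ℝ}
    (hM : ∀ z ∈ ball (0 : ℂ) 1, ‖iteratedDeriv n f z‖ ≤ M) :
    ∀ j ≤ n, ∀ z ∈ ball (0 : ℂ) 1,
      ‖iteratedDeriv (n - j) f z‖ ≤ M * ‖z - ζ‖ ^ j / j.factorial := by
  intro j
  induction j with
  | zero => intro _ z hz; simpa using hM z hz
  | succ j ih =>
    intro hj z hz
    have ih' := ih (by omega)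
    set k := n - (j + 1) with hk
    have hk1 : n - j = k + 1 := by omega
    rw [hk1] at ih'
    have hz1 : ‖z‖ < 1 := by rwa [mem_ball_zero_iff] at hz
    set φ : ℝ → ℂ := fun s => iteratedDeriv k f (ζ + (s : ℂ) * (z - ζ)) with hφ
    have hder : ∀ s : ℝ, 0 < s → s ≤ 1 → HasDerivAt φ
        (iteratedDeriv (k + 1) f (ζ + (s : ℂ) * (z - ζ)) * (z - ζ)) s := by
      intro s h0 h1
      have hm := seg_mem hζ hz1 h0 h1
      have hd1 : HasDerivAt (iteratedDeriv k f) (iteratedDeriv (k + 1) f (ζ + (s : ℂ) * (z - ζ)))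
          (ζ + (s : ℂ) * (z - ζ)) := by
        rw [iteratedDeriv_succ]
        exact ((analytic_iter hf k) _ hm).differentiableAt.hasDerivAt
      have hd2 : HasDerivAt (fun s : ℝ => ζ + (s : ℂ) * (z - ζ)) (z - ζ) s := by
        have h3 : HasDerivAt (fun s : ℝ => (s : ℂ)) 1 s := Complex.ofRealCLM.hasDerivAt
        have h4 := (h3.mul_const (z - ζ)).const_add ζ
        simpa using h4
      exact hd1.comp s hd2
    have hMj : 0 ≤ M := (norm_nonneg _).trans (hM z hz)
    have hbound : ∀ ε : ℝ, 0 < ε → ε < 1 →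
        ‖φ 1‖ ≤ ‖φ ε‖ + M * ‖z - ζ‖ ^ (j + 1) / (j + 1).factorial := by
      intro ε h0 h1
      set B : ℝ → ℝ := fun s => ‖φ ε‖ + M * ‖z - ζ‖ ^ (j + 1) / (j + 1).factorial * s ^ (j + 1)
        with hB
      have hBd : ∀ x, HasDerivAt B (M * ‖z - ζ‖ ^ (j + 1) / j.factorial * x ^ j) x := by
        intro x
        have h3 := (((hasDerivAt_pow (j + 1) x).const_mul
          (M * ‖z - ζ‖ ^ (j + 1) / (j + 1).factorial)).const_add ‖φ ε‖)
        refine h3.congr_deriv ?_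
        rw [Nat.factorial_succ]
        have : (j.factorial : ℝ) ≠ 0 := by positivity
        push_cast
        field_simp
      have key := image_norm_le_of_norm_deriv_right_le_deriv_boundary (f := φ)
        (f' := fun s => iteratedDeriv (k + 1) f (ζ + (s : ℂ) * (z - ζ)) * (z - ζ))
        (a := ε) (b := 1) (B := B)
        (B' := fun x => M * ‖z - ζ‖ ^ (j + 1) / j.factorial * x ^ j)
        (fun s hs => (hder s (by linarith [hs.1]) hs.2).continuousAt.continuousWithinAt)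
        (fun s hs => (hder s (by linarith [hs.1]) hs.2.le).hasDerivWithinAt)
        (by simp only [hB]
            have : 0 ≤ M * ‖z - ζ‖ ^ (j + 1) / (j + 1).factorial * ε ^ (j + 1) := by positivity
            linarith)
        hBd
        (fun s hs => by
          have hs0 : 0 < s := by linarith [hs.1]
          have hm := seg_mem hζ hz1 hs0 hs.2.le
          have h5 := ih' _ hm
          have h6 : ‖ζ + (s : ℂ) * (z - ζ) - ζ‖ = s * ‖z - ζ‖ := by
            rw [add_sub_cancel_left, norm_mul, Complex.norm_real, Real.norm_of_nonneg hs0.le]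
          rw [h6] at h5
          show ‖iteratedDeriv (k + 1) f (ζ + (s : ℂ) * (z - ζ)) * (z - ζ)‖ ≤ _
          rw [norm_mul]
          calc ‖iteratedDeriv (k + 1) f (ζ + (s : ℂ) * (z - ζ))‖ * ‖z - ζ‖
              ≤ (M * (s * ‖z - ζ‖) ^ j / j.factorial) * ‖z - ζ‖ := by gcongr
            _ = M * ‖z - ζ‖ ^ (j + 1) / j.factorial * s ^ j := by rw [mul_pow, pow_succ]; ring)
      have h7 := key (x := 1) ⟨h1.le, le_rfl⟩
      simpa [hB] using h7
    have hlim : Tendsto (fun ε : ℝ => ‖φ ε‖ + M * ‖z - ζ‖ ^ (j + 1) / (j + 1).factorial)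
        (𝓝[>] 0) (𝓝 (0 + M * ‖z - ζ‖ ^ (j + 1) / (j + 1).factorial)) := by
      apply Tendsto.add_const
      have h1 : Tendsto (fun s : ℝ => ζ + (s : ℂ) * (z - ζ)) (𝓝[>] 0) (𝓝[ball 0 1] ζ) := by
        rw [tendsto_nhdsWithin_iff]
        constructor
        · have hc : Continuous (fun s : ℝ => ζ + (s : ℂ) * (z - ζ)) := by fun_prop
          have := hc.tendsto 0
          simp only [Complex.ofReal_zero, zero_mul, add_zero] at this
          exact this.mono_left nhdsWithin_le_nhds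
        · have : Ioo (0 : ℝ) 1 ∈ 𝓝[>] (0 : ℝ) := Ioo_mem_nhdsGT one_pos
          filter_upwards [this] with s hs
          exact seg_mem hζ hz1 hs.1 hs.2.le
      have h2 := ((hv k).comp h1).norm
      rw [norm_zero] at h2
      exact h2
    have hfin := ge_of_tendsto hlim (by
      have : Ioo (0 : ℝ) 1 ∈ 𝓝[>] (0 : ℝ) := Ioo_mem_nhdsGT one_pos
      filter_upwards [this] with ε hε
      exact hbound ε hε.1 hε.2)
    rw [zero_add] at hfin
    have h8 : φ 1 = iteratedDeriv k f z := by simp [hφ]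
    rwa [h8] at hfin

/-- Gevrey functions are exponentially small near points of flatness. -/
lemma gevrey_flat {α : ℝ} (hα : 0 < α) {f : ℂ → ℂ} (hG : MemG α f) :
    ∃ A c : ℝ, 0 < A ∧ 0 < c ∧ ∀ ζ : ℂ, ‖ζ‖ = 1 →
      (∀ n : ℕ, Tendsto (iteratedDeriv n f) (𝓝[ball 0 1] ζ) (𝓝 0)) →
      ∀ z ∈ ball (0 : ℂ) 1, ‖f z‖ ≤ A * Real.exp (-c * ‖z - ζ‖ ^ (-α)) := by
  obtain ⟨hf, C, hC⟩ := hG
  set A := max |C| 1 with hA
  have hA1 : 1 ≤ A := le_max_right _ _
  have hA0 : 0 < A := by linarith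
  have he : 0 < Real.exp 1 := Real.exp_pos _
  refine ⟨A * Real.exp 1, (Real.exp 1 * A) ^ (-α), by positivity, by positivity, ?_⟩
  intro ζ hζ hv z hz
  set d := ‖z - ζ‖ with hd
  have hd0 : 0 < d := by
    rw [hd, norm_pos_iff, sub_ne_zero]
    rintro rfl
    rw [mem_ball_zero_iff, hζ] at hz; exact lt_irrefl _ hz
  have hn : ∀ n : ℕ, ‖f z‖ ≤ A * (A * d * (n : ℝ) ^ (1 / α)) ^ n := by
    intro n
    have hM : ∀ z ∈ ball (0 : ℂ) 1,
        ‖iteratedDeriv n f z‖ ≤ A ^ (n + 1) * (n.factorial : ℝ) ^ (1 + 1 / α) := by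
      intro z hz
      refine (hC n z hz).trans ?_
      apply mul_le_mul_of_nonneg_right _ (by positivity)
      calc C ^ (n + 1) ≤ |C ^ (n + 1)| := le_abs_self _
        _ = |C| ^ (n + 1) := abs_pow _ _
        _ ≤ A ^ (n + 1) := pow_le_pow_left₀ (abs_nonneg _) (le_max_left _ _) _
    have h1 := taylor_flat hf hζ hv hM n le_rfl z hz
    rw [Nat.sub_self, iteratedDeriv_zero, ← hd] at h1
    have hfac : (0 : ℝ) < n.factorial := by exact_mod_cast Nat.factorial_pos n
    have h2 : A ^ (n + 1) * (n.factorial : ℝ) ^ (1 + 1 / α) * d ^ n / n.factorial =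
        A ^ (n + 1) * d ^ n * (n.factorial : ℝ) ^ (1 / α) := by
      rw [Real.rpow_add hfac, Real.rpow_one]; field_simp
    rw [h2] at h1
    have h3 : (n.factorial : ℝ) ^ (1 / α) ≤ ((n : ℝ) ^ (1 / α)) ^ n := by
      have h4 : (n.factorial : ℝ) ≤ (n : ℝ) ^ n := by exact_mod_cast Nat.factorial_le_pow n
      calc (n.factorial : ℝ) ^ (1 / α) ≤ ((n : ℝ) ^ n) ^ (1 / α) :=
            Real.rpow_le_rpow hfac.le h4 (by positivity)
        _ = ((n : ℝ) ^ (1 / α)) ^ n := by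
            rw [← Real.rpow_natCast, ← Real.rpow_natCast, ← Real.rpow_mul (Nat.cast_nonneg _),
              ← Real.rpow_mul (Nat.cast_nonneg _), mul_comm]
    calc ‖f z‖ ≤ A ^ (n + 1) * d ^ n * (n.factorial : ℝ) ^ (1 / α) := h1
      _ ≤ A ^ (n + 1) * d ^ n * ((n : ℝ) ^ (1 / α)) ^ n := by gcongr
      _ = A * (A * d * (n : ℝ) ^ (1 / α)) ^ n := by rw [mul_pow, mul_pow, pow_succ]; ring
  set x := (1 / (Real.exp 1 * A * d)) ^ α with hx
  have hx0 : 0 ≤ x := by positivity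
  set n := ⌊x⌋₊ with hnn
  have h1 : (n : ℝ) ≤ x := Nat.floor_le hx0
  have h2 : x < n + 1 := Nat.lt_floor_add_one x
  have h3 : (n : ℝ) ^ (1 / α) ≤ 1 / (Real.exp 1 * A * d) := by
    calc (n : ℝ) ^ (1 / α) ≤ x ^ (1 / α) :=
          Real.rpow_le_rpow (Nat.cast_nonneg _) h1 (by positivity)
      _ = 1 / (Real.exp 1 * A * d) := by
          rw [hx, ← Real.rpow_mul (by positivity), mul_one_div_cancel hα.ne', Real.rpow_one]
  have h4 : A * d * (n : ℝ) ^ (1 / α) ≤ Real.exp (-1) := by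
    calc A * d * (n : ℝ) ^ (1 / α) ≤ A * d * (1 / (Real.exp 1 * A * d)) := by gcongr
      _ = Real.exp (-1) := by rw [Real.exp_neg]; field_simp
  have h5 : (A * d * (n : ℝ) ^ (1 / α)) ^ n ≤ Real.exp (-(n : ℝ)) := by
    calc (A * d * (n : ℝ) ^ (1 / α)) ^ n ≤ (Real.exp (-1)) ^ n :=
          pow_le_pow_left₀ (by positivity) h4 n
      _ = Real.exp (-(n : ℝ)) := by rw [← Real.exp_nat_mul]; congr 1; ring
  have h6 : x = (Real.exp 1 * A) ^ (-α) * d ^ (-α) := by
    rw [hx, ← Real.mul_rpow (by positivity) hd0.le, one_div, Real.inv_rpow (by positivity),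
      Real.rpow_neg (by positivity)]
  calc ‖f z‖ ≤ A * (A * d * (n : ℝ) ^ (1 / α)) ^ n := hn n
    _ ≤ A * Real.exp (-(n : ℝ)) := by gcongr
    _ ≤ A * Real.exp (1 - x) := by
        apply mul_le_mul_of_nonneg_left _ hA0.le
        apply Real.exp_le_exp.mpr; linarith
    _ = A * Real.exp 1 * Real.exp (-(Real.exp 1 * A) ^ (-α) * d ^ (-α)) := by
        rw [mul_assoc, ← Real.exp_add, h6]; congr 2; ring

/-- Lower bound for the circle averages of `log |f|` (from the Jensen formula). -/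
lemma jensen_lower {f : ℂ → ℂ} (hf : DifferentiableOn ℂ f (ball 0 1)) :
    ∃ c0 : ℝ, ∀ r : ℝ, 1 / 2 ≤ r → r < 1 →
      c0 ≤ Real.circleAverage (fun z => Real.log ‖f z‖) 0 r := by
  have han := hf.analyticOnNhd isOpen_ball
  refine ⟨-(((meromorphicOrderAt f 0).untop₀ : ℤ) : ℝ) * Real.log 2 +
    Real.log ‖meromorphicTrailingCoeffAt f 0‖, ?_⟩
  intro r hr1 hr2
  have hr0 : 0 < r := by linarith
  have hsub : closedBall (0 : ℂ) |r| ⊆ ball 0 1 := by
    rw [abs_of_pos hr0]; exact closedBall_subset_ball hr2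
  have hA : AnalyticOnNhd ℂ f (closedBall 0 |r|) := han.mono hsub
  have hJ := MeromorphicOn.circleAverage_log_norm hr0.ne' hA.meromorphicOn
  rw [hJ]
  have hdiv : MeromorphicOn.divisor f (closedBall 0 |r|) 0 = (meromorphicOrderAt f 0).untop₀ :=
    MeromorphicOn.divisor_apply hA.meromorphicOn (by simp)
  have hnn : (0 : ℤ) ≤ (meromorphicOrderAt f 0).untop₀ := by
    rw [← hdiv]; exact (MeromorphicOn.AnalyticOnNhd.divisor_nonneg hA) 0
  have h1 : 0 ≤ ∑ᶠ u, (MeromorphicOn.divisor f (closedBall 0 |r|) u : ℝ) *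
      Real.log (r * ‖(0 : ℂ) - u‖⁻¹) := by
    apply finsum_nonneg
    intro u
    by_cases hu : u ∈ closedBall (0 : ℂ) |r|
    · apply mul_nonneg
      · exact_mod_cast (MeromorphicOn.AnalyticOnNhd.divisor_nonneg hA) u
      · by_cases hu0 : u = 0
        · simp [hu0]
        · apply Real.log_nonneg
          rw [mem_closedBall_zero_iff, abs_of_pos hr0] at hu
          rw [zero_sub, norm_neg, ← div_eq_mul_inv, one_le_div (norm_pos_iff.mpr hu0)]
          exact hu
    · have : MeromorphicOn.divisor f (closedBall 0 |r|) u = 0 :=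
        Function.locallyFinsuppWithin.apply_eq_zero_of_notMem _ hu
      rw [this]; simp
  rw [hdiv]
  have h2 : -Real.log 2 ≤ Real.log r := by
    rw [← Real.log_inv]
    apply Real.log_le_log (by norm_num)
    rw [← one_div]; exact hr1
  have h3 : (0 : ℝ) ≤ (((meromorphicOrderAt f 0).untop₀ : ℤ) : ℝ) := by exact_mod_cast hnn
  nlinarith

end H884.PS
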