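import Pool.Agent.Run7.h884.PS.Nodes3
import Pool.Agent.Run7.h884.PS.Zero

/-!
# The peak set is not a zero set of the Gevrey class
-/

namespace H884.PS

open Complex Metric Set Filter Topology MeasureTheory
open scoped Classical ComplexConjugate

/-- the window of the cluster `k` -/
noncomputable def win (p : ℝ) (k : ℕ) : Set ℝ :=
  Ico (Xk k) (Xk k + Nk p (Lm p) k * Gk p (Lm p) k)

/-- the step function -/
noncomputable def psi (p α : ℝ) (S : Finset ℕ) (r θ : ℝ) : ℝ :=
  ∑ k ∈ S, (win p k).indicator (fun _ => ((1 - r) + Gk p (Lm p) k) ^ (-α)) θ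

lemma win_disj {p : ℝ} (hp : 1 < p) {k l : ℕ} {θ : ℝ} (hk : θ ∈ win p k) (hl : θ ∈ win p l) :
    k = l := by
  have key : ∀ k l : ℕ, k < l → θ ∈ win p k → θ ∈ win p l → False := by
    intro k l hkl hk hl
    have h1 := hk.1
    have h2 := hl.2
    have h3 := N_mul_G hp (Lm_ge hp) l
    have h4 := Xk_succ_le hkl
    have h5 := Xk0 k
    linarith
  rcases lt_trichotomy k l with h | h | h
  · exact (key k l h hk hl).elim
  · exact h
  · exact (key l k h hl hk).elim

lemma win_node {p : ℝ} (hp : 1 < p) {k : ℕ} {θ r : ℝ} (hr1 : r < 1)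
    (hk : θ ∈ win p k) :
    ∃ i < Nk p (Lm p) k, ‖circleMap 0 r θ - zt p (Lm p) k i‖ ≤ (1 - r) + Gk p (Lm p) k := by
  have hG := Gk0 hp (Lm_ge hp) k
  set G := Gk p (Lm p) k with hGdef
  have h0 : 0 ≤ (θ - Xk k) / G := div_nonneg (by linarith [hk.1]) hG.le
  refine ⟨⌊(θ - Xk k) / G⌋₊, ?_, ?_⟩
  · rw [Nat.floor_lt h0, div_lt_iff₀ hG]
    have := hk.2
    linarith
  · set i := ⌊(θ - Xk k) / G⌋₊ with hi
    have h1 : (i : ℝ) ≤ (θ - Xk k) / G := Nat.floor_le h0
    have h2 : (θ - Xk k) / G < i + 1 := Nat.lt_floor_add_one _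
    rw [le_div_iff₀ hG] at h1
    rw [div_lt_iff₀ hG] at h2
    have h3 : |θ - th p (Lm p) k i| ≤ G := by
      unfold th
      rw [← hGdef, abs_le]; constructor <;> linarith
    have h4 := norm_exp_sub_le θ (th p (Lm p) k i)
    have h5 : circleMap 0 r θ - zt p (Lm p) k i =
        ((r : ℂ) - 1) * cexp (θ * I) + (cexp (θ * I) - cexp (th p (Lm p) k i * I)) := by
      unfold circleMap zt; ring
    rw [h5]
    refine (norm_add_le _ _).trans ?_
    have h6 : ‖((r : ℂ) - 1) * cexp (θ * I)‖ = 1 - r := by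
      rw [norm_mul, Complex.norm_exp_ofReal_mul_I, mul_one]
      have : ((r : ℂ) - 1) = ((r - 1 : ℝ) : ℂ) := by push_cast; ring
      rw [this, Complex.norm_real, Real.norm_eq_abs, abs_of_neg (by linarith)]
      ring
    rw [h6]; linarith

lemma psi_le {p α : ℝ} (hp : 1 < p) (S : Finset ℕ) {r : ℝ} (hr1 : r < 1) (θ : ℝ) :
    psi p α S r θ ≤ ∑ k ∈ S, ((1 - r) + Gk p (Lm p) k) ^ (-α) := by
  unfold psi
  apply Finset.sum_le_sum
  intro k _
  have hG := Gk0 hp (Lm_ge hp) k
  by_cases h : θ ∈ win p k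
  · rw [indicator_of_mem h]
  · rw [indicator_of_notMem h]
    have : 0 < (1 - r) + Gk p (Lm p) k := by linarith
    positivity

lemma win_sub {p : ℝ} (hp : 1 < p) (k : ℕ) : win p k ⊆ Ioc 0 (2 * Real.pi) := by
  intro θ hθ
  have h1 := hθ.1
  have h2 := hθ.2
  have h3 := N_mul_G hp (Lm_ge hp) k
  have h4 := Xk0 k
  have h5 := Xk1 k
  have := Real.pi_gt_three
  constructor <;> linarith

lemma psi_integral {p α : ℝ} (hp : 1 < p) (S : Finset ℕ) (r : ℝ) :
    IntervalIntegrable (psi p α S r) volume 0 (2 * Real.pi) ∧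
      ∫ θ in (0 : ℝ)..(2 * Real.pi), psi p α S r θ =
        ∑ k ∈ S, Nk p (Lm p) k * Gk p (Lm p) k * ((1 - r) + Gk p (Lm p) k) ^ (-α) := by
  have hint : ∀ k, IntervalIntegrable
      ((win p k).indicator (fun _ => ((1 - r) + Gk p (Lm p) k) ^ (-α))) volume 0
        (2 * Real.pi) := by
    intro k
    rw [intervalIntegrable_iff_integrableOn_Ioc_of_le (by positivity)]
    apply IntegrableOn.indicator _ measurableSet_Ico
    exact integrableOn_const measure_Ioc_lt_top.ne
  have hval : ∀ k, ∫ θ in (0 : ℝ)..(2 * Real.pi),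
      (win p k).indicator (fun _ => ((1 - r) + Gk p (Lm p) k) ^ (-α)) θ =
      Nk p (Lm p) k * Gk p (Lm p) k * ((1 - r) + Gk p (Lm p) k) ^ (-α) := by
    intro k
    have hG := Gk0 hp (Lm_ge hp) k
    have hN : (0 : ℝ) ≤ Nk p (Lm p) k := Nat.cast_nonneg _
    have hm : MeasurableSet (win p k) := measurableSet_Ico
    rw [intervalIntegral.integral_of_le (by positivity),
      setIntegral_indicator hm, inter_eq_self_of_subset_right (win_sub hp k),
      setIntegral_const]
    unfold win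
    rw [Real.volume_real_Ico_of_le (by nlinarith)]
    simp only [smul_eq_mul]; ring
  constructor
  · have := IntervalIntegrable.sum S (fun k (_ : k ∈ S) => hint k)
    have heq : psi p α S r =
        ∑ k ∈ S, (win p k).indicator (fun _ => ((1 - r) + Gk p (Lm p) k) ^ (-α)) := by
      funext θ; simp [psi]
    rw [heq]; exact this
  · unfold psi
    rw [intervalIntegral.integral_finsetSum (fun k _ => hint k)]
    exact Finset.sum_congr rfl fun k _ => hval k

/-- the main inequality -/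
lemma mass_bound {α : ℝ} (hα0 : 0 < α) (hα1 : α < 1)
    (h : IsZeroSet α (sys hα0 hα1).E) :
    ∃ B : ℝ, ∀ S : Finset ℕ, ∀ r : ℝ, 1 / 2 ≤ r → r < 1 →
      ∑ k ∈ S, Nk (1 / α) (Lm (1 / α)) k * Gk (1 / α) (Lm (1 / α)) k *
        ((1 - r) + Gk (1 / α) (Lm (1 / α)) k) ^ (-α) ≤ B := by
  have hp : 1 < 1 / α := by rw [lt_div_iff₀ hα0]; linarith
  set p := 1 / α with hpdef
  obtain ⟨_, _, f, hG, ⟨z1, hz1, hfz1⟩, hflat⟩ := h
  obtain ⟨A, c, hA, hc, hdec⟩ := gevrey_flat hα0 hG
  obtain ⟨c0, hJ⟩ := jensen_lower hG.1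
  refine ⟨2 * Real.pi / c * (Real.log A - c0), ?_⟩
  intro S r hr1 hr2
  have hr0 : 0 < r := by linarith
  have han := hG.1.analyticOnNhd isOpen_ball
  have hsub : sphere (0 : ℂ) |r| ⊆ ball 0 1 := by
    rw [abs_of_pos hr0]; exact sphere_subset_closedBall.trans (closedBall_subset_ball hr2)
  set T := ∑ k ∈ S, ((1 - r) + Gk p (Lm p) k) ^ (-α) with hT
  set f2 : ℂ → ℝ := fun z => if f z = 0 then Real.log A - c * T else Real.log ‖f z‖ with hf2
  have hcod : (fun z => Real.log ‖f z‖) =ᶠ[codiscreteWithin (sphere (0 : ℂ) |r|)] f2 := by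
    have h1 := han.preimage_zero_mem_codiscreteWithin hfz1 hz1
      ⟨⟨0, by simp⟩, (convex_ball (0 : ℂ) 1).isPreconnected⟩
    have h2 := Filter.codiscreteWithin_mono hsub h1
    filter_upwards [h2] with z hz
    have : f z ≠ 0 := by simpa using hz
    simp only [hf2, this, if_false]
  have hint : CircleIntegrable f2 0 r :=
    CircleIntegrable.congr_codiscreteWithin hcod
      ((han.mono hsub).meromorphicOn.circleIntegrable_log_norm)
  have hav : c0 ≤ Real.circleAverage f2 0 r := by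
    rw [← Real.circleAverage_congr_codiscreteWithin hcod hr0.ne']
    exact hJ r hr1 hr2
  have hmem : ∀ θ : ℝ, circleMap 0 r θ ∈ ball (0 : ℂ) 1 := by
    intro θ
    rw [mem_ball_zero_iff, norm_circleMap_zero, abs_of_pos hr0]; exact hr2
  have hpt : ∀ θ : ℝ, f2 (circleMap 0 r θ) ≤ Real.log A - c * psi p α S r θ := by
    intro θ
    by_cases hf0 : f (circleMap 0 r θ) = 0
    · simp only [hf2, hf0, if_true]
      have := psi_le (α := α) hp S hr2 θ
      rw [← hT] at this
      nlinarith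
    · simp only [hf2, hf0, if_false]
      have hpos : 0 < ‖f (circleMap 0 r θ)‖ := norm_pos_iff.mpr hf0
      by_cases hex : ∃ k ∈ S, θ ∈ win p k
      · obtain ⟨k, hkS, hk⟩ := hex
        have hpsi : psi p α S r θ = ((1 - r) + Gk p (Lm p) k) ^ (-α) := by
          unfold psi
          rw [Finset.sum_eq_single k]
          · rw [indicator_of_mem hk]
          · intro l _ hl
            rw [indicator_of_notMem]
            intro hl'
            exact hl (win_disj hp hl' hk)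
          · intro hk'; exact absurd hkS hk'
        obtain ⟨i, hi, hd⟩ := win_node hp hr2 hk
        have hζ : ‖zt p (Lm p) k i‖ = 1 := by
          unfold zt; exact Complex.norm_exp_ofReal_mul_I _
        have hE : zt p (Lm p) k i ∈ (sys hα0 hα1).E :=
          mem_insert_of_mem _ ⟨(⟨k, ⟨i, hi⟩⟩ : Ix p), rfl⟩
        have h1 := hdec _ hζ (fun n => hflat n _ hE) _ (hmem θ)
        have hd0 : 0 < ‖circleMap 0 r θ - zt p (Lm p) k i‖ := by
          rw [norm_pos_iff, sub_ne_zero]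
          intro heq
          have := hmem θ
          rw [heq, mem_ball_zero_iff, hζ] at this
          exact lt_irrefl _ this
        have h2 : ((1 - r) + Gk p (Lm p) k) ^ (-α) ≤
            ‖circleMap 0 r θ - zt p (Lm p) k i‖ ^ (-α) :=
          Real.rpow_le_rpow_of_nonpos hd0 hd (by linarith)
        have h3 := Real.log_le_log hpos h1
        rw [Real.log_mul hA.ne' (Real.exp_pos _).ne', Real.log_exp] at h3
        rw [hpsi]
        nlinarith
      · push Not at hex
        have hpsi : psi p α S r θ = 0 := by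
          unfold psi
          apply Finset.sum_eq_zero
          intro k hk
          rw [indicator_of_notMem (hex k hk)]
        have hE : (1 : ℂ) ∈ (sys hα0 hα1).E := mem_insert _ _
        have h1 := hdec 1 (by simp) (fun n => hflat n _ hE) _ (hmem θ)
        have h4 : ‖f (circleMap 0 r θ)‖ ≤ A := by
          refine h1.trans ?_
          have : Real.exp (-c * ‖circleMap 0 r θ - 1‖ ^ (-α)) ≤ 1 := by
            apply Real.exp_le_one_iff.mpr
            have : 0 ≤ ‖circleMap 0 r θ - 1‖ ^ (-α) := by positivity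
            nlinarith
          nlinarith
        rw [hpsi, mul_zero, sub_zero]
        exact Real.log_le_log hpos h4
  obtain ⟨hpi, hpv⟩ := psi_integral (α := α) hp S r
  have hpi2 : IntervalIntegrable (fun θ => Real.log A - c * psi p α S r θ) volume 0
      (2 * Real.pi) := intervalIntegrable_const.sub (hpi.const_mul c)
  have hI := intervalIntegral.integral_mono_on (by positivity : (0 : ℝ) ≤ 2 * Real.pi) hint hpi2
    (fun θ _ => hpt θ)
  rw [intervalIntegral.integral_sub intervalIntegrable_const (hpi.const_mul c),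
    intervalIntegral.integral_const, intervalIntegral.integral_const_mul, hpv] at hI
  rw [Real.circleAverage_def, smul_eq_mul] at hav
  have hpi0 := Real.pi_pos
  have h5 : c0 * (2 * Real.pi) ≤ ∫ θ in (0 : ℝ)..(2 * Real.pi), f2 (circleMap 0 r θ) := by
    rw [← div_eq_inv_mul, le_div_iff₀ (by positivity)] at hav
    exact hav
  rw [sub_zero, smul_eq_mul] at hI
  rw [div_mul_eq_mul_div, le_div_iff₀ hc]
  linarith

lemma mass_bound' {α : ℝ} (hα0 : 0 < α) (hα1 : α < 1)
    (h : IsZeroSet α (sys hα0 hα1).E) :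
    ∃ B : ℝ, ∀ S : Finset ℕ,
      ∑ k ∈ S, Nk (1 / α) (Lm (1 / α)) k * Gk (1 / α) (Lm (1 / α)) k *
        (Gk (1 / α) (Lm (1 / α)) k) ^ (-α) ≤ B := by
  have hp : 1 < 1 / α := by rw [lt_div_iff₀ hα0]; linarith
  obtain ⟨B, hB⟩ := mass_bound hα0 hα1 h
  refine ⟨B, fun S => ?_⟩
  have hlim : Tendsto (fun r : ℝ => ∑ k ∈ S, Nk (1 / α) (Lm (1 / α)) k *
      Gk (1 / α) (Lm (1 / α)) k * ((1 - r) + Gk (1 / α) (Lm (1 / α)) k) ^ (-α)) (𝓝[<] 1)
      (𝓝 (∑ k ∈ S, Nk (1 / α) (Lm (1 / α)) k * Gk (1 / α) (Lm (1 / α)) k *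
        (Gk (1 / α) (Lm (1 / α)) k) ^ (-α))) := by
    apply tendsto_finsetSum
    intro k _
    have hG := Gk0 hp (Lm_ge hp) k
    apply Tendsto.const_mul
    have h1 : Tendsto (fun r : ℝ => (1 - r) + Gk (1 / α) (Lm (1 / α)) k) (𝓝[<] 1)
        (𝓝 (Gk (1 / α) (Lm (1 / α)) k)) := by
      have hc : Continuous (fun r : ℝ => (1 - r) + Gk (1 / α) (Lm (1 / α)) k) := by fun_prop
      have := hc.tendsto 1
      simp only [sub_self, zero_add] at this
      exact this.mono_left nhdsWithin_le_nhds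
    exact h1.rpow_const (Or.inl hG.ne')
  apply le_of_tendsto hlim
  have : Ico (1 / 2 : ℝ) 1 ∈ 𝓝[<] (1 : ℝ) := Ico_mem_nhdsLT (by norm_num)
  filter_upwards [this] with r hr
  exact hB S r hr.1 hr.2

theorem not_zeroSet {α : ℝ} (hα0 : 0 < α) (hα1 : α < 1) :
    ¬ IsZeroSet α (sys hα0 hα1).E := by
  intro h
  have hp : 1 < 1 / α := by rw [lt_div_iff₀ hα0]; linarith
  obtain ⟨B, hB⟩ := mass_bound' hα0 hα1 h
  have hΛ := Lm_ge hp
  set Λ := Lm (1 / α) with hΛdef
  have hΛ0 : 0 < Λ := by linarith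
  obtain ⟨k0, hk0⟩ := eventually_atTop.mp (ev_N hp Λ hΛ)
  have hterm : ∀ k, k0 ≤ k → (1 / 16 * Λ ^ (-α)) * (1 / ((k : ℝ) + 1)) ≤
      Nk (1 / α) Λ k * Gk (1 / α) Λ k * (Gk (1 / α) Λ k) ^ (-α) := by
    intro k hk
    have h1 := hk0 k hk
    have hG := Gk0 hp hΛ k
    have hX := Xk0 k
    have hk1 : (0 : ℝ) < (k : ℝ) + 1 := by positivity
    have h2 : (Gk (1 / α) Λ k) ^ (-α) = Λ ^ (-α) * (((k : ℝ) + 1)⁻¹ * (Xk k)⁻¹) := by
      have e1 : Gk (1 / α) Λ k = Λ * (((k : ℝ) + 1) ^ (1 / α) * (Xk k) ^ (1 / α)) := by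
        unfold Gk lam mk
        rw [Real.rpow_sub_one hX.ne']
        field_simp
      rw [e1, Real.mul_rpow hΛ0.le (by positivity), Real.mul_rpow (by positivity) (by positivity),
        ← Real.rpow_mul hk1.le, ← Real.rpow_mul hX.le]
      have e2 : 1 / α * -α = -1 := by field_simp
      rw [e2, Real.rpow_neg_one, Real.rpow_neg_one]
    rw [h2]
    have hΛα : 0 < Λ ^ (-α) := Real.rpow_pos_of_pos hΛ0 _
    calc (1 / 16 * Λ ^ (-α)) * (1 / ((k : ℝ) + 1))
        = (Xk k / 16) * (Λ ^ (-α) * (((k : ℝ) + 1)⁻¹ * (Xk k)⁻¹)) := by field_simp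
      _ ≤ (Nk (1 / α) Λ k * Gk (1 / α) Λ k) * (Λ ^ (-α) * (((k : ℝ) + 1)⁻¹ * (Xk k)⁻¹)) := by
          gcongr
  have hΛα : 0 < 1 / 16 * Λ ^ (-α) := by
    have := Real.rpow_pos_of_pos hΛ0 (-α); positivity
  have hsum : ∀ K, k0 ≤ K → ∑ k ∈ Finset.range K, 1 / ((k : ℝ) + 1) ≤
      B / (1 / 16 * Λ ^ (-α)) + ∑ k ∈ Finset.range k0, 1 / ((k : ℝ) + 1) := by
    intro K hK
    rw [← Finset.sum_range_add_sum_Ico _ hK, add_comm]
    gcongr
    rw [le_div_iff₀ hΛα, mul_comm, Finset.mul_sum]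
    refine le_trans (Finset.sum_le_sum ?_) (hB (Finset.Ico k0 K))
    intro k hk
    exact hterm k (Finset.mem_Ico.mp hk).1
  obtain ⟨K, hK1, hK2⟩ := ((Real.tendsto_sum_range_one_div_nat_succ_atTop.eventually
    (eventually_gt_atTop (B / (1 / 16 * Λ ^ (-α)) +
      ∑ k ∈ Finset.range k0, 1 / ((k : ℝ) + 1)))).and (eventually_ge_atTop k0)).exists
  exact absurd (hsum K hK2) (not_le.mpr hK1)

end H884.PS
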