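import Pool.Agent.Run7.h884.PS.Abs3

/-!
# Concrete nodes: elementary estimates
-/

namespace H884.PS

open Complex Metric Set Filter Topology
open scoped Classical ComplexConjugate

/-- chord versus arc -/
lemma norm_exp_sub (x y : ℝ) : ‖cexp (x * I) - cexp (y * I)‖ = 2 * |Real.sin ((x - y) / 2)| := by
  have h1 : cexp (x * I) - cexp (y * I) =
      cexp (((x + y) / 2 : ℝ) * I) * (2 * I * ((Real.sin ((x - y) / 2) : ℝ) : ℂ)) := by
    have e1 : cexp (x * I) = cexp (((x + y) / 2 : ℝ) * I) * cexp (((x - y) / 2 : ℝ) * I) := by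
      rw [← Complex.exp_add]; congr 1; push_cast; ring
    have e2 : cexp (y * I) = cexp (((x + y) / 2 : ℝ) * I) * cexp (-(((x - y) / 2 : ℝ) : ℂ) * I) := by
      rw [← Complex.exp_add]; congr 1; push_cast; ring
    rw [e1, e2, ← mul_sub]
    congr 1
    rw [Complex.ofReal_sin, Complex.sin]
    have hI : I * I = -1 := Complex.I_mul_I
    linear_combination (-(cexp (-(((x - y) / 2 : ℝ) : ℂ) * I) - cexp ((((x - y) / 2 : ℝ) : ℂ) * I))) * hI
  have h2 : ‖(2 : ℂ)‖ = 2 := by simp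
  rw [h1, norm_mul, Complex.norm_exp_ofReal_mul_I, one_mul, norm_mul, norm_mul,
    Complex.norm_real, Complex.norm_I, Real.norm_eq_abs, mul_one, h2]

lemma norm_exp_sub_le (x y : ℝ) : ‖cexp (x * I) - cexp (y * I)‖ ≤ |x - y| := by
  rw [norm_exp_sub]
  have h : |Real.sin ((x - y) / 2)| ≤ |(x - y) / 2| := Real.abs_sin_le_abs
  rw [abs_div, abs_two] at h
  linarith

lemma le_norm_exp_sub {x y : ℝ} (h : |x - y| ≤ 3) :
    3 / 5 * |x - y| ≤ ‖cexp (x * I) - cexp (y * I)‖ := by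
  rw [norm_exp_sub]
  have h1 : |Real.sin ((x - y) / 2)| = Real.sin (|x - y| / 2) := by
    rcases le_total 0 (x - y) with h0 | h0
    · rw [abs_of_nonneg h0] at *
      apply abs_of_nonneg
      apply Real.sin_nonneg_of_nonneg_of_le_pi (by linarith)
      have := Real.pi_gt_three; linarith
    · rw [abs_of_nonpos h0] at *
      have e : -(x - y) / 2 = -((x - y) / 2) := by ring
      rw [e, Real.sin_neg]
      apply abs_of_nonpos
      apply Real.sin_nonpos_of_nonpos_of_neg_pi_le (by linarith)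
      have := Real.pi_gt_three; linarith
  rw [h1]
  have h2 : 2 / Real.pi * (|x - y| / 2) ≤ Real.sin (|x - y| / 2) := by
    apply Real.mul_le_sin (by positivity)
    have := Real.pi_gt_three; linarith
  have h3 : 3 / 5 ≤ 2 / Real.pi := by
    rw [div_le_div_iff₀ (by norm_num) Real.pi_pos]
    have := Real.pi_lt_d2; linarith
  have h4 : 0 ≤ |x - y| := abs_nonneg _
  nlinarith

/-- harmonic sums around an index -/
lemma harm_sum (N i0 : ℕ) (h : i0 < N) :
    ∑ i ∈ Finset.range N, (if i = i0 then (0 : ℝ) else 1 / |(i : ℝ) - i0|) ≤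
      2 * (1 + Real.log N) := by
  have hH : ∀ M ≤ N, ∑ d ∈ Finset.range M, 1 / ((d : ℝ) + 1) ≤ 1 + Real.log N := by
    intro M hM
    calc ∑ d ∈ Finset.range M, 1 / ((d : ℝ) + 1)
        ≤ ∑ d ∈ Finset.range N, 1 / ((d : ℝ) + 1) := by
          apply Finset.sum_le_sum_of_subset_of_nonneg
          · exact Finset.range_mono hM
          · intro i _ _; positivity
      _ = ((harmonic N : ℚ) : ℝ) := by
          unfold harmonic; push_cast
          apply Finset.sum_congr rfl; intro i _; rw [one_div]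
      _ ≤ 1 + Real.log N := harmonic_le_one_add_log N
  have hsplit : Finset.range N = Finset.range i0 ∪ ({i0} ∪ Finset.Ico (i0 + 1) N) := by
    ext i; simp only [Finset.mem_union, Finset.mem_range, Finset.mem_singleton, Finset.mem_Ico]
    omega
  have hd1 : Disjoint (Finset.range i0) ({i0} ∪ Finset.Ico (i0 + 1) N) := by
    rw [Finset.disjoint_left]; intro i hi
    simp only [Finset.mem_union, Finset.mem_range, Finset.mem_singleton, Finset.mem_Ico] at *
    omega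
  have hd2 : Disjoint ({i0} : Finset ℕ) (Finset.Ico (i0 + 1) N) := by
    rw [Finset.disjoint_left]; intro i hi
    simp only [Finset.mem_singleton, Finset.mem_Ico] at *
    omega
  rw [hsplit, Finset.sum_union hd1, Finset.sum_union hd2, Finset.sum_singleton]
  simp only [if_true, zero_add]
  have s1 : ∑ i ∈ Finset.range i0, (if i = i0 then (0 : ℝ) else 1 / |(i : ℝ) - i0|) =
      ∑ d ∈ Finset.range i0, 1 / ((d : ℝ) + 1) := by
    rw [← Finset.sum_range_reflect]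
    apply Finset.sum_congr rfl
    intro i hi
    rw [Finset.mem_range] at hi
    have hne : i0 - 1 - i ≠ i0 := by omega
    simp only [hne, if_false]
    have e : ((i0 - 1 - i : ℕ) : ℝ) = i0 - 1 - i := by
      rw [Nat.cast_sub (by omega), Nat.cast_sub (by omega)]; push_cast; ring
    rw [e]
    have e2 : |((i0 : ℝ) - 1 - i) - i0| = (i : ℝ) + 1 := by
      rw [abs_of_nonpos (by have : (0 : ℝ) ≤ i := Nat.cast_nonneg i
                            linarith)]
      ring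
    rw [e2]
  have s2 : ∑ i ∈ Finset.Ico (i0 + 1) N, (if i = i0 then (0 : ℝ) else 1 / |(i : ℝ) - i0|) =
      ∑ d ∈ Finset.range (N - (i0 + 1)), 1 / ((d : ℝ) + 1) := by
    rw [Finset.sum_Ico_eq_sum_range]
    apply Finset.sum_congr rfl
    intro i _
    have hne : i0 + 1 + i ≠ i0 := by omega
    simp only [hne, if_false]
    have e2 : |((i0 + 1 + i : ℕ) : ℝ) - i0| = (i : ℝ) + 1 := by
      push_cast
      have : (0 : ℝ) ≤ i := Nat.cast_nonneg i
      rw [abs_of_nonneg (by linarith)]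
      ring
    rw [e2]
  rw [s1, s2]
  have := hH i0 h.le
  have := hH (N - (i0 + 1)) (by omega)
  linarith

/-- scale -/
noncomputable def Xk (k : ℕ) : ℝ := (1 / 2) ^ k
/-- mass of a node -/
noncomputable def mk (p : ℝ) (k : ℕ) : ℝ := (Xk k) ^ (p - 1)
/-- sparsity -/
noncomputable def lam (p Λ : ℝ) (k : ℕ) : ℝ := Λ * ((k : ℝ) + 1) ^ p
/-- spacing -/
noncomputable def Gk (p Λ : ℝ) (k : ℕ) : ℝ := lam p Λ k * mk p k * Xk k
/-- number of nodes -/
noncomputable def Nk (p Λ : ℝ) (k : ℕ) : ℕ := ⌊1 / (8 * lam p Λ k * mk p k)⌋₊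
/-- angle of a node -/
noncomputable def th (p Λ : ℝ) (k i : ℕ) : ℝ := Xk k + i * Gk p Λ k
/-- node -/
noncomputable def zt (p Λ : ℝ) (k i : ℕ) : ℂ := cexp (th p Λ k i * I)

lemma Xk0 (k : ℕ) : 0 < Xk k := by unfold Xk; positivity
lemma Xk1 (k : ℕ) : Xk k ≤ 1 := by unfold Xk; exact pow_le_one₀ (by norm_num) (by norm_num)
lemma mk0 (p : ℝ) (k : ℕ) : 0 < mk p k := Real.rpow_pos_of_pos (Xk0 k) _
lemma mk1 {p : ℝ} (hp : 1 < p) (k : ℕ) : mk p k ≤ 1 :=
  Real.rpow_le_one (Xk0 k).le (Xk1 k) (by linarith)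

lemma lam_ge {p Λ : ℝ} (hp : 1 < p) (hΛ : 1 ≤ Λ) (k : ℕ) : Λ ≤ lam p Λ k := by
  unfold lam
  have h : (1 : ℝ) ≤ ((k : ℝ) + 1) ^ p :=
    Real.one_le_rpow (by have : (0 : ℝ) ≤ k := Nat.cast_nonneg k
                         linarith) (by linarith)
  nlinarith

lemma lam0 {p Λ : ℝ} (hp : 1 < p) (hΛ : 1 ≤ Λ) (k : ℕ) : 0 < lam p Λ k := by
  have := lam_ge hp hΛ k; linarith

lemma Gk0 {p Λ : ℝ} (hp : 1 < p) (hΛ : 1 ≤ Λ) (k : ℕ) : 0 < Gk p Λ k := by
  unfold Gk; have := lam0 hp hΛ k; have := mk0 p k; have := Xk0 k; positivity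

lemma N_mul {p Λ : ℝ} (hp : 1 < p) (hΛ : 1 ≤ Λ) (k : ℕ) :
    (Nk p Λ k : ℝ) * (8 * lam p Λ k * mk p k) ≤ 1 := by
  have h1 := lam0 hp hΛ k; have h2 := mk0 p k
  have h3 : (Nk p Λ k : ℝ) ≤ 1 / (8 * lam p Λ k * mk p k) := Nat.floor_le (by positivity)
  rwa [le_div_iff₀ (by positivity)] at h3

lemma N_mul_G {p Λ : ℝ} (hp : 1 < p) (hΛ : 1 ≤ Λ) (k : ℕ) :
    (Nk p Λ k : ℝ) * Gk p Λ k ≤ Xk k / 8 := by
  have h := N_mul hp hΛ k
  have hX := Xk0 k
  unfold Gk
  nlinarith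

lemma N_mul_m {p Λ : ℝ} (hp : 1 < p) (hΛ : 1 ≤ Λ) (k : ℕ) :
    (Nk p Λ k : ℝ) * mk p k ≤ 1 / (8 * lam p Λ k) := by
  have h := N_mul hp hΛ k
  have hl := lam0 hp hΛ k
  rw [le_div_iff₀ (by positivity)]
  nlinarith

lemma G_le {p Λ : ℝ} (hp : 1 < p) (hΛ : 1 ≤ Λ) {k i : ℕ} (hi : i < Nk p Λ k) :
    Gk p Λ k ≤ Xk k / 8 := by
  have h := N_mul_G hp hΛ k
  have h1 : (1 : ℝ) ≤ Nk p Λ k := by
    have : 1 ≤ Nk p Λ k := by omega
    exact_mod_cast this
  have := Gk0 hp hΛ k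
  nlinarith

lemma th_ge {p Λ : ℝ} (hp : 1 < p) (hΛ : 1 ≤ Λ) (k i : ℕ) : Xk k ≤ th p Λ k i := by
  unfold th
  have := Gk0 hp hΛ k
  have h : (0 : ℝ) ≤ i := Nat.cast_nonneg i
  nlinarith

lemma th_le {p Λ : ℝ} (hp : 1 < p) (hΛ : 1 ≤ Λ) {k i : ℕ} (hi : i < Nk p Λ k) :
    th p Λ k i ≤ 9 / 8 * Xk k := by
  unfold th
  have h := N_mul_G hp hΛ k
  have h1 : (i : ℝ) ≤ Nk p Λ k := by exact_mod_cast hi.le
  have := Gk0 hp hΛ k
  nlinarith

lemma one_sub_zt {p Λ : ℝ} (hp : 1 < p) (hΛ : 1 ≤ Λ) {k i : ℕ} (hi : i < Nk p Λ k) :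
    ‖1 - zt p Λ k i‖ ≤ 9 / 8 * Xk k ∧ 3 / 5 * Xk k ≤ ‖1 - zt p Λ k i‖ := by
  have h1 := th_ge hp hΛ k i
  have h2 := th_le hp hΛ hi
  have hX0 := Xk0 k
  have hX1 := Xk1 k
  have e : (1 : ℂ) = cexp ((0 : ℝ) * I) := by simp
  unfold zt
  rw [e]
  have e2 : |(0 : ℝ) - th p Λ k i| = th p Λ k i := by
    rw [zero_sub, abs_neg, abs_of_nonneg (by linarith)]
  constructor
  · refine (norm_exp_sub_le _ _).trans ?_
    rw [e2]; exact h2
  · have := le_norm_exp_sub (x := 0) (y := th p Λ k i) (by rw [e2]; linarith)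
    rw [e2] at this
    linarith

lemma zt_same {p Λ : ℝ} (hp : 1 < p) (hΛ : 1 ≤ Λ) {k i j : ℕ} (hi : i < Nk p Λ k)
    (hj : j < Nk p Λ k) :
    3 / 5 * (|(i : ℝ) - j| * Gk p Λ k) ≤ ‖zt p Λ k i - zt p Λ k j‖ := by
  have hG := Gk0 hp hΛ k
  have hX0 := Xk0 k
  have hX1 := Xk1 k
  have e : |th p Λ k i - th p Λ k j| = |(i : ℝ) - j| * Gk p Λ k := by
    have : th p Λ k i - th p Λ k j = ((i : ℝ) - j) * Gk p Λ k := by unfold th; ring
    rw [this, abs_mul, abs_of_pos hG]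
  have h1 := th_ge hp hΛ k i
  have h2 := th_le hp hΛ hi
  have h3 := th_ge hp hΛ k j
  have h4 := th_le hp hΛ hj
  have h5 : |th p Λ k i - th p Λ k j| ≤ 3 := by
    rw [abs_le]; constructor <;> linarith
  have := le_norm_exp_sub h5
  rw [e] at this
  exact this

lemma Xk_succ_le {k l : ℕ} (h : k < l) : Xk l ≤ Xk k / 2 := by
  have e : Xk k / 2 = Xk (k + 1) := by unfold Xk; rw [pow_succ]; ring
  rw [e]
  unfold Xk
  exact pow_le_pow_of_le_one (by norm_num) (by norm_num) h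

lemma zt_diff {p Λ : ℝ} (hp : 1 < p) (hΛ : 1 ≤ Λ) {k l i j : ℕ} (hkl : k < l)
    (hi : i < Nk p Λ k) (hj : j < Nk p Λ l) :
    1 / 4 * Xk k ≤ ‖zt p Λ k i - zt p Λ l j‖ := by
  have hX0 := Xk0 k
  have hX1 := Xk1 k
  have hX0' := Xk0 l
  have hs := Xk_succ_le hkl
  have h1 := th_ge hp hΛ k i
  have h2 := th_le hp hΛ hi
  have h3 := th_ge hp hΛ l j
  have h4 := th_le hp hΛ hj
  have h5 : |th p Λ k i - th p Λ l j| ≤ 3 := by
    rw [abs_le]; constructor <;> linarith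
  have h6 := le_norm_exp_sub h5
  rw [abs_of_nonneg (by linarith)] at h6
  have e : ‖zt p Λ k i - zt p Λ l j‖ = ‖cexp (th p Λ k i * I) - cexp (th p Λ l j * I)‖ := rfl
  rw [e]
  linarith

/-- two nodes cannot both be within a quarter of their spacing of the same point -/
lemma active_unique {p Λ : ℝ} (hp : 1 < p) (hΛ : 1 ≤ Λ) {k l i j : ℕ} (hi : i < Nk p Λ k)
    (hj : j < Nk p Λ l) {z : ℂ} (h1 : ‖z - zt p Λ k i‖ < 1 / 4 * Gk p Λ k)
    (h2 : ‖z - zt p Λ l j‖ < 1 / 4 * Gk p Λ l) : k = l ∧ i = j := by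
  have tri : ‖zt p Λ k i - zt p Λ l j‖ < 1 / 4 * Gk p Λ k + 1 / 4 * Gk p Λ l := by
    have := norm_sub_le_norm_sub_add_norm_sub (zt p Λ k i) z (zt p Λ l j)
    rw [norm_sub_rev (zt p Λ k i) z] at this
    linarith
  have g1 := G_le hp hΛ hi
  have g2 := G_le hp hΛ hj
  rcases lt_trichotomy k l with h | h | h
  · exfalso
    have := zt_diff hp hΛ h hi hj
    have := Xk_succ_le h
    have := Xk0 k
    linarith
  · subst h
    refine ⟨rfl, ?_⟩
    by_contra hne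
    have h3 := zt_same hp hΛ hi hj
    have hG := Gk0 hp hΛ k
    have h4 : (1 : ℝ) ≤ |(i : ℝ) - j| := by
      have : (1 : ℤ) ≤ |(i : ℤ) - j| := by
        apply Int.one_le_abs
        intro h; apply hne; omega
      exact_mod_cast this
    nlinarith
  · exfalso
    have h3 := zt_diff hp hΛ h hj hi
    rw [norm_sub_rev] at h3
    have := Xk_succ_le h
    have := Xk0 l
    linarith

lemma log_N {p Λ : ℝ} (hp : 1 < p) (hΛ : 1 ≤ Λ) (k : ℕ) :
    1 + Real.log (Nk p Λ k) ≤ p * ((k : ℝ) + 1) := by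
  have hk : (0 : ℝ) ≤ k := Nat.cast_nonneg k
  by_cases h0 : Nk p Λ k = 0
  · rw [h0]; simp; nlinarith
  · have hpos : (0 : ℝ) < Nk p Λ k := by exact_mod_cast Nat.pos_of_ne_zero h0
    have hl := lam_ge hp hΛ k
    have hm := mk0 p k
    have h1 := N_mul hp hΛ k
    have h2 : (Nk p Λ k : ℝ) ≤ (mk p k)⁻¹ := by
      rw [← one_div, le_div_iff₀ hm]
      have h3 : (Nk p Λ k : ℝ) * mk p k * 1 ≤ (Nk p Λ k : ℝ) * mk p k * (8 * lam p Λ k) := by
        apply mul_le_mul_of_nonneg_left _ (by positivity)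
        linarith
      nlinarith
    have h3 : Real.log (Nk p Λ k) ≤ (p - 1) * k := by
      refine (Real.log_le_log hpos h2).trans ?_
      rw [Real.log_inv]
      unfold mk Xk
      rw [Real.log_rpow (by positivity), Real.log_pow, Real.log_div one_ne_zero two_ne_zero,
        Real.log_one, zero_sub]
      have h4 : Real.log 2 ≤ 1 := by have := Real.log_two_lt_d9; linarith
      have h5 : 0 ≤ Real.log 2 := Real.log_nonneg (by norm_num)
      have h6 : 0 ≤ (p - 1) * k := by apply mul_nonneg (by linarith) hk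
      nlinarith
    nlinarith

end H884.PS
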