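import Pool.Agent.Run7.h884.PS.Nodes

/-!
# The concrete system of nodes
-/

namespace H884.PS

open Complex Metric Set Filter Topology
open scoped Classical ComplexConjugate

/-- estimate for one node -/
lemma one_node {p Λ : ℝ} (hp : 1 < p) (hΛ : 1 ≤ Λ) {k i : ℕ} (hi : i < Nk p Λ k) {z : ℂ} {d : ℝ}
    (hd : 0 < d) (hz : d ≤ ‖z - zt p Λ k i‖) :
    ‖z - 1‖ * (mk p k / ‖z - zt p Λ k i‖) ≤ mk p k + 9 / 8 * (Xk k * mk p k / d) := by
  have hpos : 0 < ‖z - zt p Λ k i‖ := lt_of_lt_of_le hd hz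
  have h1 := (one_sub_zt hp hΛ hi).1
  have h2 : ‖z - 1‖ ≤ ‖z - zt p Λ k i‖ + 9 / 8 * Xk k := by
    have := norm_sub_le_norm_sub_add_norm_sub z (zt p Λ k i) 1
    rw [norm_sub_rev (zt p Λ k i) 1] at this
    linarith
  have hm := mk0 p k
  have hX := Xk0 k
  calc ‖z - 1‖ * (mk p k / ‖z - zt p Λ k i‖)
      ≤ (‖z - zt p Λ k i‖ + 9 / 8 * Xk k) * (mk p k / ‖z - zt p Λ k i‖) := by gcongr
    _ = mk p k + 9 / 8 * (Xk k * mk p k / ‖z - zt p Λ k i‖) := by field_simp
    _ ≤ mk p k + 9 / 8 * (Xk k * mk p k / d) := by gcongr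

lemma near_bound {p Λ : ℝ} (hp : 1 < p) (hΛ : 1 ≤ Λ) (k : ℕ) (z : ℂ) (P : ℕ → Prop)
    (hP : ∀ i < Nk p Λ k, P i → 1 / 4 * Gk p Λ k ≤ ‖z - zt p Λ k i‖) :
    ‖z - 1‖ * ∑ i ∈ Finset.range (Nk p Λ k), (if P i then mk p k / ‖z - zt p Λ k i‖ else 0) ≤
      13 * p / Λ := by
  have hm := mk0 p k
  have hX := Xk0 k
  have hl := lam0 hp hΛ k
  have hG := Gk0 hp hΛ k
  by_cases hN : Nk p Λ k = 0
  · rw [hN]; simp; positivity
  obtain ⟨i0, hi0, hmin⟩ := Finset.exists_min_image (Finset.range (Nk p Λ k))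
    (fun i => ‖z - zt p Λ k i‖) ⟨0, by rw [Finset.mem_range]; omega⟩
  rw [Finset.mem_range] at hi0
  have hXmG : Xk k * mk p k / Gk p Λ k = 1 / lam p Λ k := by unfold Gk; field_simp
  have hterm : ∀ i ∈ Finset.range (Nk p Λ k),
      ‖z - 1‖ * (if P i then mk p k / ‖z - zt p Λ k i‖ else 0) ≤
      mk p k + 9 / 8 * (1 / lam p Λ k) * ((if i = i0 then 4 else 0) +
        10 / 3 * (if i = i0 then (0 : ℝ) else 1 / |(i : ℝ) - i0|)) := by
    intro i hi
    rw [Finset.mem_range] at hi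
    by_cases hPi : P i
    · rw [if_pos hPi]
      by_cases hii : i = i0
      · have h1 := one_node hp hΛ hi (by positivity) (hP i hi hPi)
        simp only [hii, if_true] at *
        refine h1.trans (le_of_eq ?_)
        rw [mul_zero, add_zero, mul_assoc, ← hXmG]
        field_simp
      · have habs : (1 : ℝ) ≤ |(i : ℝ) - i0| := by
          have : (1 : ℤ) ≤ |(i : ℤ) - i0| := by
            apply Int.one_le_abs; omega
          exact_mod_cast this
        have hd : 3 / 10 * (|(i : ℝ) - i0| * Gk p Λ k) ≤ ‖z - zt p Λ k i‖ := by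
          have h2 := zt_same hp hΛ hi hi0
          have h3 := norm_sub_le_norm_sub_add_norm_sub (zt p Λ k i) z (zt p Λ k i0)
          rw [norm_sub_rev (zt p Λ k i) z] at h3
          have h4 : ‖z - zt p Λ k i0‖ ≤ ‖z - zt p Λ k i‖ :=
            hmin i (by rw [Finset.mem_range]; exact hi)
          linarith
        have h1 := one_node hp hΛ hi (by positivity) hd
        simp only [hii, if_false]
        refine h1.trans (le_of_eq ?_)
        rw [zero_add, mul_assoc (9 / 8 : ℝ) (1 / lam p Λ k), ← hXmG]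
        field_simp
    · rw [if_neg hPi, mul_zero]
      split_ifs <;> positivity
  rw [Finset.mul_sum]
  refine (Finset.sum_le_sum hterm).trans ?_
  rw [Finset.sum_add_distrib, ← Finset.mul_sum, Finset.sum_add_distrib, ← Finset.mul_sum]
  have hs1 : ∑ i ∈ Finset.range (Nk p Λ k), mk p k = Nk p Λ k * mk p k := by simp
  have hs2 : ∑ i ∈ Finset.range (Nk p Λ k), (if i = i0 then (4 : ℝ) else 0) = 4 := by
    rw [Finset.sum_ite_eq' (Finset.range (Nk p Λ k)) i0 (fun _ => (4 : ℝ))]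
    rw [if_pos (Finset.mem_range.mpr hi0)]
  have hs3 := harm_sum (Nk p Λ k) i0 hi0
  have hNm := N_mul_m hp hΛ k
  have hlog := log_N hp hΛ k
  have hN1 : (1 : ℝ) ≤ Nk p Λ k := by
    have : 1 ≤ Nk p Λ k := by omega
    exact_mod_cast this
  have hlog0 : 0 ≤ Real.log (Nk p Λ k) := Real.log_nonneg hN1
  rw [hs1, hs2]
  have h1 : (1 : ℝ) / (8 * lam p Λ k) = 1 / 8 * (1 / lam p Λ k) := by field_simp
  rw [h1] at hNm
  have hil : 0 < 1 / lam p Λ k := by positivity
  have hfin : (1 / lam p Λ k) * (13 * (p * ((k : ℝ) + 1))) ≤ 13 * p / Λ := by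
    have hk : (0 : ℝ) ≤ k := Nat.cast_nonneg k
    have h2 : ((k : ℝ) + 1) ≤ ((k : ℝ) + 1) ^ p := by
      have := Real.rpow_le_rpow_of_exponent_le (x := (k : ℝ) + 1) (by linarith) hp.le
      rwa [Real.rpow_one] at this
    unfold lam
    rw [one_div, inv_mul_le_iff₀ (by positivity)]
    have e : Λ * ((k : ℝ) + 1) ^ p * (13 * p / Λ) = 13 * p * ((k : ℝ) + 1) ^ p := by
      have : Λ ≠ 0 := by positivity
      field_simp
    rw [e]
    have : 0 < p := by linarith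
    nlinarith
  calc (Nk p Λ k : ℝ) * mk p k + 9 / 8 * (1 / lam p Λ k) *
      (4 + 10 / 3 * ∑ i ∈ Finset.range (Nk p Λ k), (if i = i0 then (0 : ℝ) else 1 / |(i : ℝ) - i0|))
      ≤ 1 / 8 * (1 / lam p Λ k) + 9 / 8 * (1 / lam p Λ k) *
        (4 + 10 / 3 * (2 * (1 + Real.log (Nk p Λ k)))) := by gcongr
    _ = (1 / lam p Λ k) * (37 / 8 + 15 / 2 * (1 + Real.log (Nk p Λ k))) := by ring
    _ ≤ (1 / lam p Λ k) * (13 * (1 + Real.log (Nk p Λ k))) := by
        apply mul_le_mul_of_nonneg_left _ hil.le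
        linarith
    _ ≤ (1 / lam p Λ k) * (13 * (p * ((k : ℝ) + 1))) := by
        apply mul_le_mul_of_nonneg_left _ hil.le
        linarith
    _ ≤ 13 * p / Λ := hfin

lemma far_bound {p Λ : ℝ} (hp : 1 < p) (hΛ : 1 ≤ Λ) (k : ℕ) (z : ℂ) (P : ℕ → Prop)
    (hfar : ¬ (‖z - 1‖ / 4 < Xk k ∧ Xk k < 4 * ‖z - 1‖)) :
    ‖z - 1‖ * ∑ i ∈ Finset.range (Nk p Λ k), (if P i then mk p k / ‖z - zt p Λ k i‖ else 0) ≤
      1 / (4 * lam p Λ k) := by
  have hm := mk0 p k
  have hX := Xk0 k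
  have hl := lam0 hp hΛ k
  have hr : 0 ≤ ‖z - 1‖ := norm_nonneg _
  have hterm : ∀ i ∈ Finset.range (Nk p Λ k),
      ‖z - 1‖ * (if P i then mk p k / ‖z - zt p Λ k i‖ else 0) ≤ 2 * mk p k := by
    intro i hi
    rw [Finset.mem_range] at hi
    obtain ⟨o1, o2⟩ := one_sub_zt hp hΛ hi
    split_ifs with hPi
    · by_cases hc : 4 * Xk k ≤ ‖z - 1‖
      · have hd : 2 * Xk k ≤ ‖z - zt p Λ k i‖ := by
          have h3 := norm_sub_le_norm_sub_add_norm_sub z (zt p Λ k i) 1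
          rw [norm_sub_rev (zt p Λ k i) 1] at h3
          linarith
        have h1 := one_node hp hΛ hi (by positivity) hd
        have h2 : 9 / 8 * (Xk k * mk p k / (2 * Xk k)) = 9 / 16 * mk p k := by
          field_simp; norm_num
        rw [h2] at h1
        linarith
      · have hc2 : 4 * ‖z - 1‖ ≤ Xk k := by
          by_contra hcon
          apply hfar
          constructor
          · linarith
          · linarith
        have hd : 1 / 4 * Xk k ≤ ‖z - zt p Λ k i‖ := by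
          have h3 := norm_sub_le_norm_sub_add_norm_sub 1 z (zt p Λ k i)
          rw [norm_sub_rev 1 z] at h3
          linarith
        have hpos : 0 < ‖z - zt p Λ k i‖ := by linarith
        rw [← mul_div_assoc, div_le_iff₀ hpos]
        nlinarith
    · rw [mul_zero]; positivity
  rw [Finset.mul_sum]
  refine (Finset.sum_le_sum hterm).trans ?_
  have hNm := N_mul_m hp hΛ k
  have hs1 : ∑ i ∈ Finset.range (Nk p Λ k), 2 * mk p k = 2 * (Nk p Λ k * mk p k) := by
    simp; ring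
  rw [hs1]
  have : 1 / (4 * lam p Λ k) = 2 * (1 / (8 * lam p Λ k)) := by field_simp; norm_num
  rw [this]; linarith

/-- the bound for the cluster `k` at distance `r` from `1` -/
noncomputable def bnd (p Λ r : ℝ) (k : ℕ) : ℝ :=
  1 / (4 * lam p Λ k) + (if r / 4 < Xk k ∧ Xk k < 4 * r then 13 * p / Λ else 0)

lemma cluster_bound {p Λ : ℝ} (hp : 1 < p) (hΛ : 1 ≤ Λ) (k : ℕ) (z : ℂ) (P : ℕ → Prop)
    (hP : ∀ i < Nk p Λ k, P i → 1 / 4 * Gk p Λ k ≤ ‖z - zt p Λ k i‖) :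
    ‖z - 1‖ * ∑ i ∈ Finset.range (Nk p Λ k), (if P i then mk p k / ‖z - zt p Λ k i‖ else 0) ≤
      bnd p Λ ‖z - 1‖ k := by
  unfold bnd
  have hl := lam0 hp hΛ k
  split_ifs with h
  · have := near_bound hp hΛ k z P hP
    have h2 : 0 < 1 / (4 * lam p Λ k) := by positivity
    linarith
  · have := far_bound hp hΛ k z P h
    linarith

/-- the zeta sum -/
noncomputable def Zp (p : ℝ) : ℝ := ∑' k : ℕ, 1 / ((k : ℝ) + 1) ^ p

lemma summable_Zp {p : ℝ} (hp : 1 < p) : Summable (fun k : ℕ => 1 / ((k : ℝ) + 1) ^ p) := by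
  have h := (summable_nat_add_iff 1).mpr (Real.summable_one_div_nat_rpow.mpr hp)
  refine h.congr (fun k => ?_)
  push_cast; rfl

/-- the sparsity constant -/
noncomputable def Lm (p : ℝ) : ℝ := 2 * Zp p + 416 * p

lemma Lm_ge {p : ℝ} (hp : 1 < p) : 1 ≤ Lm p := by
  unfold Lm
  have h : 0 ≤ Zp p := tsum_nonneg fun k => by positivity
  linarith

lemma summable_lam {p Λ : ℝ} (hp : 1 < p) (hΛ : 1 ≤ Λ) :
    Summable (fun k : ℕ => 1 / (4 * lam p Λ k)) ∧
      ∑' k : ℕ, 1 / (4 * lam p Λ k) = Zp p / (4 * Λ) := by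
  have e : (fun k : ℕ => 1 / (4 * lam p Λ k)) =
      fun k : ℕ => (1 / (4 * Λ)) * (1 / ((k : ℝ) + 1) ^ p) := by
    funext k
    unfold lam
    have : Λ ≠ 0 := by positivity
    field_simp
  rw [e]
  refine ⟨(summable_Zp hp).mul_left _, ?_⟩
  rw [tsum_mul_left]; unfold Zp; ring

lemma near_sum {c r : ℝ} (hc : 0 ≤ c) :
    Summable (fun k : ℕ => if r / 4 < Xk k ∧ Xk k < 4 * r then c else 0) ∧
      ∑' k : ℕ, (if r / 4 < Xk k ∧ Xk k < 4 * r then c else 0) ≤ 4 * c := by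
  by_cases hex : ∃ k, r / 4 < Xk k ∧ Xk k < 4 * r
  · set k0 := Nat.find hex with hk0
    have hk0s := Nat.find_spec hex
    rw [← hk0] at hk0s
    have hmem : ∀ k, (r / 4 < Xk k ∧ Xk k < 4 * r) → k ∈ Finset.Ico k0 (k0 + 4) := by
      intro k hk
      rw [Finset.mem_Ico]
      refine ⟨Nat.find_min' hex hk, ?_⟩
      by_contra hcon
      push Not at hcon
      have h1 : Xk k ≤ Xk (k0 + 4) := by
        unfold Xk; exact pow_le_pow_of_le_one (by norm_num) (by norm_num) hcon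
      have h2 : Xk (k0 + 4) = Xk k0 / 16 := by unfold Xk; rw [pow_add]; norm_num; ring
      linarith [hk.1, hk0s.2]
    have hz : ∀ k ∉ Finset.Ico k0 (k0 + 4),
        (if r / 4 < Xk k ∧ Xk k < 4 * r then c else 0) = 0 := by
      intro k hk
      rw [if_neg]
      intro h; exact hk (hmem k h)
    refine ⟨summable_of_ne_finset_zero hz, ?_⟩
    rw [tsum_eq_sum hz]
    calc ∑ k ∈ Finset.Ico k0 (k0 + 4), (if r / 4 < Xk k ∧ Xk k < 4 * r then c else 0)
        ≤ ∑ k ∈ Finset.Ico k0 (k0 + 4), c := by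
          apply Finset.sum_le_sum; intro k _; split_ifs <;> linarith
      _ = 4 * c := by simp
  · push Not at hex
    have hz : ∀ k, (if r / 4 < Xk k ∧ Xk k < 4 * r then c else 0) = 0 := by
      intro k
      rw [if_neg]
      intro h; exact absurd h.2 (not_lt.mpr (hex k h.1))
    simp only [hz]
    refine ⟨summable_zero, ?_⟩
    rw [tsum_zero]; positivity

lemma bnd_sum {p : ℝ} (hp : 1 < p) (r : ℝ) :
    Summable (bnd p (Lm p) r) ∧ ∑' k, bnd p (Lm p) r k ≤ 1 / 8 := by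
  have hΛ := Lm_ge hp
  obtain ⟨s1, t1⟩ := summable_lam hp hΛ
  obtain ⟨s2, t2⟩ := near_sum (c := 13 * p / Lm p) (r := r) (by positivity)
  refine ⟨s1.add s2, ?_⟩
  have e : ∑' k, bnd p (Lm p) r k = ∑' k : ℕ, 1 / (4 * lam p (Lm p) k) +
      ∑' k : ℕ, (if r / 4 < Xk k ∧ Xk k < 4 * r then 13 * p / Lm p else 0) := s1.tsum_add s2
  rw [e, t1]
  have h3 : Zp p / (4 * Lm p) + 4 * (13 * p / Lm p) = 1 / 8 := by
    have hne : Lm p ≠ 0 := by positivity
    field_simp
    unfold Lm; ring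
  linarith

end H884.PS
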