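import Pool.Agent.Run7.h884.PS.Nodes2

/-!
# The concrete system satisfies the axioms
-/

namespace H884.PS

open Complex Metric Set Filter Topology
open scoped Classical ComplexConjugate

/-- index type -/
abbrev Ix (p : ℝ) : Type := Σ k : ℕ, Fin (Nk p (Lm p) k)

/-- node as a function of the index -/
noncomputable def zn (p : ℝ) (j : Ix p) : ℂ := zt p (Lm p) j.1 j.2

lemma sum_bound {p : ℝ} (hp : 1 < p) {z : ℂ} (hz : z ≠ 1) (P : ℕ → ℕ → Prop)
    (hP : ∀ k, ∀ i < Nk p (Lm p) k, P k i →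
      1 / 4 * Gk p (Lm p) k ≤ ‖z - zt p (Lm p) k i‖) :
    Summable (fun j : Ix p => if P j.1 j.2 then mk p j.1 / ‖z - zn p j‖ else 0) ∧
      ∑' j : Ix p, (if P j.1 j.2 then mk p j.1 / ‖z - zn p j‖ else 0) ≤ 1 / (8 * ‖z - 1‖) := by
  have hΛ := Lm_ge hp
  have hr : 0 < ‖z - 1‖ := norm_pos_iff.mpr (sub_ne_zero.mpr hz)
  set f : Ix p → ℝ := fun j => if P j.1 j.2 then mk p j.1 / ‖z - zn p j‖ else 0 with hf
  have hf0 : ∀ j, 0 ≤ f j := by
    intro j; simp only [hf]
    have := (mk0 p j.1).le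
    split_ifs <;> positivity
  have hin : ∀ k, ∑' i : Fin (Nk p (Lm p) k), f ⟨k, i⟩ =
      ∑ i ∈ Finset.range (Nk p (Lm p) k),
        (if P k i then mk p k / ‖z - zt p (Lm p) k i‖ else 0) := by
    intro k
    rw [tsum_fintype, Finset.sum_range]
    rfl
  have hb : ∀ k, ∑' i : Fin (Nk p (Lm p) k), f ⟨k, i⟩ ≤ bnd p (Lm p) ‖z - 1‖ k / ‖z - 1‖ := by
    intro k
    rw [hin, le_div_iff₀ hr, mul_comm]
    exact cluster_bound hp hΛ k z (P k) (hP k)
  obtain ⟨s1, t1⟩ := bnd_sum hp ‖z - 1‖
  have s2 : Summable (fun k => ∑' i : Fin (Nk p (Lm p) k), f ⟨k, i⟩) := by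
    apply Summable.of_nonneg_of_le _ hb (s1.div_const _)
    intro k; exact tsum_nonneg fun i => hf0 _
  have hs : Summable f := by
    rw [summable_sigma_of_nonneg hf0]
    exact ⟨fun k => (hasSum_fintype _).summable, s2⟩
  refine ⟨hs, ?_⟩
  rw [hs.tsum_sigma]
  calc ∑' k, ∑' i : Fin (Nk p (Lm p) k), f ⟨k, i⟩
      ≤ ∑' k, bnd p (Lm p) ‖z - 1‖ k / ‖z - 1‖ := s2.tsum_le_tsum hb (s1.div_const _)
    _ = (∑' k, bnd p (Lm p) ‖z - 1‖ k) / ‖z - 1‖ := tsum_div_const
    _ ≤ (1 / 8) / ‖z - 1‖ := by gcongr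
    _ = 1 / (8 * ‖z - 1‖) := by field_simp

lemma summable_m {p : ℝ} (hp : 1 < p) : Summable (fun j : Ix p => mk p j.1) := by
  have hΛ := Lm_ge hp
  rw [summable_sigma_of_nonneg (fun j => (mk0 p j.1).le)]
  refine ⟨fun k => (hasSum_fintype _).summable, ?_⟩
  obtain ⟨s1, -⟩ := summable_lam hp hΛ
  apply Summable.of_nonneg_of_le _ _ s1
  · intro k; exact tsum_nonneg fun i => (mk0 p k).le
  · intro k
    rw [tsum_fintype]
    simp only [Finset.sum_const, Finset.card_univ, Fintype.card_fin, nsmul_eq_mul]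
    have h1 := N_mul_m hp hΛ k
    have hl := lam0 hp hΛ k
    refine h1.trans ?_
    apply one_div_le_one_div_of_le (by positivity)
    linarith

lemma lam_mk_tendsto {p : ℝ} (hp : 1 < p) (Λ : ℝ) :
    Tendsto (fun k => lam p Λ k * mk p k) atTop (𝓝 0) := by
  have hb : 0 < (p - 1) * Real.log 2 := by
    apply mul_pos (by linarith) (Real.log_pos (by norm_num))
  have h1 := tendsto_rpow_mul_exp_neg_mul_atTop_nhds_zero p _ hb
  have h2 : Tendsto (fun k : ℕ => ((k : ℝ) + 1)) atTop atTop :=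
    tendsto_atTop_add_const_right _ _ tendsto_natCast_atTop_atTop
  have h3 := (h1.comp h2).const_mul (Λ * Real.exp ((p - 1) * Real.log 2))
  rw [mul_zero] at h3
  refine h3.congr (fun k => ?_)
  simp only [Function.comp]
  have e : mk p k = Real.exp ((p - 1) * Real.log 2) *
      Real.exp (-((p - 1) * Real.log 2) * ((k : ℝ) + 1)) := by
    rw [← Real.exp_add]
    unfold mk Xk
    rw [Real.rpow_def_of_pos (by positivity), Real.log_pow, Real.log_div one_ne_zero two_ne_zero,
      Real.log_one]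
    congr 1; ring
  rw [e]
  unfold lam
  ring

lemma ev_N {p : ℝ} (hp : 1 < p) (Λ : ℝ) (hΛ : 1 ≤ Λ) :
    ∀ᶠ k in atTop, Xk k / 16 ≤ Nk p Λ k * Gk p Λ k := by
  have h1 := (lam_mk_tendsto hp Λ).eventually (gt_mem_nhds (show (0 : ℝ) < 1 / 16 by norm_num))
  filter_upwards [h1] with k hk
  have hl := lam0 hp hΛ k
  have hm := mk0 p k
  have hX := Xk0 k
  have h2 : 1 / (8 * lam p Λ k * mk p k) < (Nk p Λ k : ℝ) + 1 := Nat.lt_floor_add_one _
  rw [div_lt_iff₀ (by positivity)] at h2
  unfold Gk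
  nlinarith [mul_pos hl hm]

lemma exists_ix {p : ℝ} (hp : 1 < p) : Nonempty (Ix p) := by
  obtain ⟨k, hk⟩ := (ev_N hp (Lm p) (Lm_ge hp)).exists
  have hX := Xk0 k
  have hN : 0 < Nk p (Lm p) k := by
    rcases Nat.eq_zero_or_pos (Nk p (Lm p) k) with h | h
    · rw [h] at hk; simp at hk; linarith
    · exact h
  exact ⟨⟨k, ⟨0, hN⟩⟩⟩

/-- the concrete system -/
noncomputable def sys {α : ℝ} (hα0 : 0 < α) (hα1 : α < 1) : Sys α where
  ι := Ix (1 / α)
  ζ := zn (1 / α)
  X := fun j => Xk j.1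
  m := fun j => mk (1 / α) j.1
  hζ := fun j => by unfold zn zt; exact Complex.norm_exp_ofReal_mul_I _
  X0 := fun j => Xk0 j.1
  X1 := fun j => Xk1 j.1
  m0 := fun j => mk0 _ j.1
  m1 := fun j => mk1 (by rw [lt_div_iff₀ hα0]; linarith) j.1
  hm := fun j => by
    unfold mk
    rw [← Real.rpow_mul (Xk0 _).le]
    congr 1
    field_simp
  hX := fun j => by
    have hp : 1 < 1 / α := by rw [lt_div_iff₀ hα0]; linarith
    have := (one_sub_zt hp (Lm_ge hp) j.2.2).1
    have hX := Xk0 j.1
    unfold zn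
    linarith
  sm := summable_m (by rw [lt_div_iff₀ hα0]; linarith)
  K := fun z hz1 hz => by
    have hp : 1 < 1 / α := by rw [lt_div_iff₀ hα0]; linarith
    have hΛ := Lm_ge hp
    set p := 1 / α with hpdef
    by_cases hact : ∃ j0 : Ix p, ‖z - zn p j0‖ < 1 / 4 * Gk p (Lm p) j0.1
    · obtain ⟨j0, hj0⟩ := hact
      have huniq : ∀ j : Ix p, ‖z - zn p j‖ < 1 / 4 * Gk p (Lm p) j.1 → j = j0 := by
        intro j hj
        obtain ⟨e1, e2⟩ := active_unique hp hΛ j.2.2 j0.2.2 hj hj0
        obtain ⟨k, i⟩ := j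
        obtain ⟨k', i'⟩ := j0
        simp only at e1 e2
        subst e1
        congr 1
        exact Fin.ext e2
      refine ⟨j0, ?_, ?_⟩
      · intro j hj heq
        apply hj
        apply huniq
        rw [heq, sub_self, norm_zero]
        have := Gk0 hp hΛ j.1; positivity
      · have hsb := sum_bound hp hz (fun k i => ¬ (k = j0.1 ∧ i = (j0.2 : ℕ))) (by
          intro k i hi hPk
          by_contra hcon
          push Not at hcon
          apply hPk
          have := huniq ⟨k, ⟨i, hi⟩⟩ hcon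
          rw [← this]
          exact ⟨rfl, rfl⟩)
        have heq : ∀ j : Ix p, @ite ℝ (¬ (j.1 = j0.1 ∧ (j.2 : ℕ) = (j0.2 : ℕ)))
            (Classical.propDecidable _) (mk p j.1 / ‖z - zn p j‖) 0 =
            @ite ℝ (j = j0) (Classical.propDecidable _) 0 (mk p j.1 / ‖z - zn p j‖) := by
          intro j
          by_cases h : j = j0
          · rw [if_pos h, if_neg]
            rw [h]; simp
          · rw [if_neg h, if_pos]
            rintro ⟨e1, e2⟩
            apply h
            obtain ⟨k, i⟩ := j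
            obtain ⟨k', i'⟩ := j0
            simp only at e1 e2
            subst e1
            congr 1
            exact Fin.ext e2
        refine ⟨hsb.1.congr (fun j => heq j),
          le_of_eq_of_le (tsum_congr (fun j => (heq j).symm)) hsb.2, Or.inr ?_⟩
        have h1 := one_sub_zt hp hΛ j0.2.2
        have h2 := G_le hp hΛ j0.2.2
        have hX := Xk0 j0.1
        unfold zn at hj0
        have t1 := norm_sub_le_norm_sub_add_norm_sub z (zt p (Lm p) j0.1 j0.2) 1
        have t2 := norm_sub_le_norm_sub_add_norm_sub 1 z (zt p (Lm p) j0.1 j0.2)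
        rw [norm_sub_rev (zt p (Lm p) j0.1 j0.2) 1] at t1
        rw [norm_sub_rev 1 z] at t2
        constructor <;> linarith [h1.1, h1.2]
    · push Not at hact
      have hsb := sum_bound hp hz (fun _ _ => True) (by
        intro k i hi _
        exact hact ⟨k, ⟨i, hi⟩⟩)
      simp only [if_true] at hsb
      obtain ⟨j0⟩ := exists_ix hp
      have hne : ∀ j : Ix p, z ≠ zn p j := by
        intro j heq
        have h1 := hact j
        rw [heq, sub_self, norm_zero] at h1
        have := Gk0 hp hΛ j.1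
        linarith
      have hpos : ∀ j : Ix p, 0 ≤ mk p j.1 / ‖z - zn p j‖ := by
        intro j; have := (mk0 p j.1).le; positivity
      have hs' : Summable (fun j : Ix p =>
          @ite ℝ (j = j0) (Classical.propDecidable _) 0 (mk p j.1 / ‖z - zn p j‖)) := by
        apply Summable.of_nonneg_of_le _ _ hsb.1
        · intro j; split_ifs
          · exact le_rfl
          · exact hpos j
        · intro j; split_ifs
          · exact hpos j
          · exact le_rfl
      refine ⟨j0, fun j _ => hne j, hs', ?_, Or.inl ⟨hne j0, ?_⟩⟩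
      · refine le_trans (hs'.tsum_le_tsum ?_ hsb.1) hsb.2
        intro j; split_ifs
        · exact hpos j
        · exact le_rfl
      · exact (hsb.1.le_tsum j0 (fun j _ => hpos j)).trans hsb.2

lemma zn_tendsto {p : ℝ} (hp : 1 < p) : Tendsto (zn p) cofinite (𝓝 1) := by
  have hΛ := Lm_ge hp
  rw [Metric.tendsto_nhds]
  intro ε hε
  rw [eventually_cofinite]
  have hX : Tendsto Xk atTop (𝓝 0) := by
    unfold Xk; exact tendsto_pow_atTop_nhds_zero_of_lt_one (by norm_num) (by norm_num)
  obtain ⟨K, hK⟩ := eventually_atTop.mp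
    (hX.eventually (gt_mem_nhds (show (0 : ℝ) < ε / 2 by positivity)))
  have hsub : {j : Ix p | ¬ dist (zn p j) 1 < ε} ⊆
      ⋃ k ∈ Finset.range K, Set.range (fun i : Fin (Nk p (Lm p) k) => (⟨k, i⟩ : Ix p)) := by
    intro j hj
    simp only [Set.mem_ofPred_eq, not_lt] at hj
    have hjK : j.1 < K := by
      by_contra hcon
      push Not at hcon
      have h1 := hK j.1 hcon
      have h2 := (one_sub_zt hp hΛ j.2.2).1
      rw [dist_eq_norm, norm_sub_rev] at hj
      unfold zn at hj
      have := Xk0 j.1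
      linarith
    simp only [Set.mem_iUnion, Finset.mem_range, exists_prop]
    exact ⟨j.1, hjK, ⟨j.2, rfl⟩⟩
  apply Set.Finite.subset _ hsub
  apply Set.Finite.biUnion (Finset.finite_toSet _)
  intro k _
  exact Set.finite_range _

lemma E_compact {α : ℝ} (hα0 : 0 < α) (hα1 : α < 1) : IsCompact (sys hα0 hα1).E := by
  have hp : 1 < 1 / α := by rw [lt_div_iff₀ hα0]; linarith
  have h := zn_tendsto hp
  unfold Sys.E
  exact h.isCompact_insert_range_of_cofinite

lemma E_countable {α : ℝ} (hα0 : 0 < α) (hα1 : α < 1) : (sys hα0 hα1).E.Countable := by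
  unfold Sys.E
  apply Set.Countable.insert
  have : Countable (sys hα0 hα1).ι := by
    show Countable (Ix (1 / α))
    infer_instance
  exact Set.countable_range _

end H884.PS
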